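import Pool.Agent.MSC.Final

/-!
# MP_1ee37d_an: an area bound for the multipliers from `S` into `C`
-/

namespace Pool.Agent.MSC.AreaBound

open Pool.Agent.MSC

/-- There is an absolute constant `C` such that `∑ n ^ 5 |lam_n| ^ 2 ≤ C` for every multiplier
`(lam_n)` from `S` into the class of convex functions. -/
theorem result : ∃ C : ℝ, ∀ lam : ℕ → ℂ, IsMult lam → ∀ N : ℕ,
    ∑ n ∈ Finset.range N, (n : ℝ) ^ 5 * ‖lam n‖ ^ 2 ≤ C :=
  area_bound

end Pool.Agent.MSC.AreaBound
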