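import Pool.Agent.MSC.Convex

/-!
MP_1ee37d_an: the argument of the derivative of a convex function is smaller than pi.
-/

namespace Pool.Agent.MSC

open Complex Metric Set Filter Topology Pool.Agent.StarN MeasureTheory intervalIntegral

lemma arg_lt {q : ℂ → ℂ} (hq : DifferentiableOn ℂ q (ball 0 1)) (h0 : q 0 = 0)
    (hre : ∀ z ∈ ball (0 : ℂ) 1, -1 ≤ (z * deriv q z).re) {z : ℂ} (hz : z ∈ ball (0 : ℂ) 1) :
    |(q z).im| < Real.pi := by
  rcases eq_or_ne z 0 with rfl | hz0
  · rw [h0]; simpa using Real.pi_pos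
  have hpi := Real.pi_pos
  set r : ℝ := ‖z‖ with hr
  have hr0 : 0 < r := by rw [hr]; positivity
  have hr1 : r < 1 := by rw [hr]; exact mem_ball_zero_iff.mp hz
  have hmem : ∀ θ : ℝ, circleMap 0 r θ ∈ ball (0 : ℂ) 1 := by
    intro θ
    rw [mem_ball_zero_iff]
    simp [circleMap, abs_of_pos hr0, hr1]
  set v : ℝ → ℝ := fun θ => (q (circleMap 0 r θ)).im with hv
  have hv1 : ∀ θ : ℝ, HasDerivAt v (circleMap 0 r θ * deriv q (circleMap 0 r θ)).re θ := by
    intro θ
    have h1 : HasDerivAt (fun w : ℂ => (r : ℂ) * Complex.exp (w * I))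
        ((r : ℂ) * (Complex.exp (θ * I) * I)) θ := by
      have h2 : HasDerivAt (fun w : ℂ => w * I) I θ := by
        simpa using (hasDerivAt_id (θ : ℂ)).mul_const I
      exact h2.cexp.const_mul (r : ℂ)
    have hm : (r : ℂ) * Complex.exp (θ * I) = circleMap 0 r θ := by simp [circleMap]
    have h3 : HasDerivAt q (deriv q (circleMap 0 r θ)) ((r : ℂ) * Complex.exp (θ * I)) := by
      rw [hm]
      exact (hq.differentiableAt (isOpen_ball.mem_nhds (hmem θ))).hasDerivAt
    have h4 := (HasDerivAt.comp (θ : ℂ) h3 h1).const_mul (-I)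
    have h5 := h4.real_of_complex
    have e1 : (-I * (deriv q (circleMap 0 r θ) * ((r : ℂ) * (Complex.exp (θ * I) * I)))) =
        circleMap 0 r θ * deriv q (circleMap 0 r θ) := by
      rw [← hm]
      linear_combination (-(deriv q (r * Complex.exp (θ * I))) * r * Complex.exp (θ * I)) *
        Complex.I_mul_I
    rw [e1] at h5
    refine h5.congr_of_eventuallyEq (Eventually.of_forall fun t => ?_)
    simp [hv, circleMap]
  have hmono : Monotone (fun θ => v θ + θ) := by
    refine monotone_of_deriv_nonneg (fun θ => ?_) (fun θ => ?_)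
    · exact ((hv1 θ).add (hasDerivAt_id θ)).differentiableAt
    · have := ((hv1 θ).add (hasDerivAt_id θ)).deriv
      have e : deriv (fun θ => v θ + θ) θ =
          (circleMap 0 r θ * deriv q (circleMap 0 r θ)).re + 1 := this
      rw [e]
      linarith [hre _ (hmem θ)]
  have hcont : Continuous v := continuous_iff_continuousAt.mpr fun θ => (hv1 θ).continuousAt
  have hper : Function.Periodic v (2 * Real.pi) := by
    intro θ
    simp only [hv, periodic_circleMap 0 r θ]
  have hqc : Continuous fun θ : ℝ => q (circleMap 0 r θ) :=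
    hq.continuousOn.comp_continuous (continuous_circleMap 0 r) hmem
  have hint : ∫ θ in (0 : ℝ)..2 * Real.pi, v θ = 0 := by
    have h1 : DiffContOnCl ℂ q (ball 0 |r|) := by
      refine (hq.mono ?_).diffContOnCl
      intro w hw
      have hw' := closure_ball_subset_closedBall hw
      rw [mem_closedBall_zero_iff, abs_of_pos hr0] at hw'
      exact mem_ball_zero_iff.mpr (by linarith)
    have h2 := h1.circleAverage
    rw [Real.circleAverage_def, h0] at h2
    have h3 : ∫ θ in (0 : ℝ)..2 * Real.pi, q (circleMap 0 r θ) = 0 := by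
      rcases smul_eq_zero.mp h2 with h | h
      · exact absurd h (by positivity)
      · exact h
    have h4 := Complex.imCLM.intervalIntegral_comp_comm (μ := volume)
      (hqc.intervalIntegrable 0 (2 * Real.pi))
    rw [h3, map_zero] at h4
    exact h4
  obtain ⟨θ1, hθ1⟩ : ∃ θ : ℝ, circleMap 0 r θ = z := by
    refine ⟨z.arg, ?_⟩
    simp only [circleMap, zero_add, hr]
    exact Complex.norm_mul_exp_arg_mul_I z
  have hvz : v θ1 = (q z).im := by simp only [hv, hθ1]
  have hint1 : ∫ θ in θ1..θ1 + 2 * Real.pi, v θ = 0 := by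
    rw [hper.intervalIntegral_add_eq θ1 0, zero_add, hint]
  have hlin : ∀ c : ℝ, ∫ θ in θ1..θ1 + 2 * Real.pi, (c - θ) =
      2 * Real.pi * (c - θ1) - 2 * Real.pi ^ 2 := by
    intro c
    rw [intervalIntegral.integral_sub (by simp) (by simp), intervalIntegral.integral_const,
      integral_id, smul_eq_mul]
    ring
  have hup : v θ1 < Real.pi := by
    have h1 : ∫ θ in θ1..θ1 + 2 * Real.pi, (v θ1 + θ1 - θ) <
        ∫ θ in θ1..θ1 + 2 * Real.pi, v θ := by
      refine integral_lt_integral_of_continuousOn_of_le_of_exists_lt (by linarith)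
        (by fun_prop) hcont.continuousOn (fun θ hθ => ?_) ⟨θ1 + 2 * Real.pi, by
          constructor <;> linarith, ?_⟩
      · have := hmono hθ.1.le
        simp only at this
        linarith
      · rw [hper θ1]
        linarith
    rw [hint1, hlin] at h1
    nlinarith
  have hlo : -Real.pi < v θ1 := by
    have h1 : ∫ θ in θ1..θ1 + 2 * Real.pi, v θ <
        ∫ θ in θ1..θ1 + 2 * Real.pi, (v θ1 + θ1 + 2 * Real.pi - θ) := by
      refine integral_lt_integral_of_continuousOn_of_le_of_exists_lt (by linarith)
        hcont.continuousOn (by fun_prop) (fun θ hθ => ?_) ⟨θ1, by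
          constructor <;> linarith, ?_⟩
      · have := hmono hθ.2
        simp only [hper θ1] at this
        linarith
      · linarith
    rw [hint1, hlin] at h1
    nlinarith
  rw [hvz] at hup hlo
  exact abs_lt.mpr ⟨hlo, hup⟩

/-- the derivative of a convex function has a logarithm with imaginary part smaller than pi -/
lemma deriv_slit {G : ℂ → ℂ} (hG : G ∈ ClassC) {z : ℂ} (hz : z ∈ ball (0 : ℂ) 1) :
    deriv G z ∈ slitPlane := by
  have hd := hG.1.1
  have hi := hG.1.2.1
  have hd2 : DifferentiableOn ℂ (deriv G) (ball 0 1) := hd.deriv isOpen_ball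
  obtain ⟨h, hh, hh0, hexp⟩ := exists_log_ball hd2 (fun w hw => deriv_ne hd hi hw)
  rw [hG.1.2.2.2] at hexp
  have hder : ∀ w ∈ ball (0 : ℂ) 1, deriv h w = deriv (deriv G) w / deriv G w := by
    intro w hw
    have h1 : HasDerivAt h (deriv h w) w :=
      (hh.differentiableAt (isOpen_ball.mem_nhds hw)).hasDerivAt
    have h2 : HasDerivAt (deriv G) (1 * (Complex.exp (h w) * deriv h w)) w := by
      refine (h1.cexp.const_mul 1).congr_of_eventuallyEq ?_
      filter_upwards [isOpen_ball.mem_nhds hw] with x hx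
      exact hexp x hx
    rw [h2.deriv, hexp w hw]
    have := Complex.exp_ne_zero (h w)
    field_simp
  have h3 := arg_lt hh hh0 (fun w hw => by
    have h4 := re_study hG hw
    rw [hder w hw]
    have e : w * (deriv (deriv G) w / deriv G w) =
        (1 + w * deriv (deriv G) w / deriv G w) - 1 := by ring
    rw [e, Complex.sub_re, Complex.one_re]
    linarith) hz
  rw [hexp z hz, one_mul, Complex.mem_slitPlane_iff_arg]
  refine ⟨?_, Complex.exp_ne_zero _⟩
  have h5 := abs_lt.mp h3
  have h6 : (Complex.log (Complex.exp (h z))).im = (h z).im := by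
    rw [Complex.log_exp h5.1 h5.2.le]
  rw [Complex.log_im] at h6
  rw [h6]
  exact ne_of_lt h5.2

end Pool.Agent.MSC
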