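import Pool.Agent.MSC.Final

/-!
MP_1ee37d_an: a family of Bazilevich type univalent functions. The odd function
`F(ζ) = ξ ζ / (1 - ζ ^ 2) + (1 - ξ) artanh ζ` is injective for `|ξ - 1/2| ≤ 1/2`.
-/

set_option autoImplicit false

namespace Pool.Agent.MSC

open Complex Metric Set Filter Topology Pool.Agent.StarN

/-- the odd function as a function of `y = log ((1 + ζ) / (1 - ζ))` -/
noncomputable def bK (ξ y : ℂ) : ℂ :=
  ξ * ((Complex.exp y - Complex.exp (-y)) / 4) + (1 - ξ) * (y / 2)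

lemma bK_deriv (ξ y : ℂ) : HasDerivAt (bK ξ)
    (ξ * ((Complex.exp y + Complex.exp (-y)) / 4) + (1 - ξ) / 2) y := by
  have h1 : HasDerivAt (fun y : ℂ => Complex.exp y) (Complex.exp y) y := Complex.hasDerivAt_exp y
  have h2 : HasDerivAt (fun y : ℂ => Complex.exp (-y)) (Complex.exp (-y) * (-1)) y :=
    (hasDerivAt_neg y).cexp
  have h3 := (((h1.sub h2).div_const 4).const_mul ξ).add
    (((hasDerivAt_id y).div_const 2).const_mul (1 - ξ))
  have e : ξ * ((Complex.exp y - Complex.exp (-y) * (-1)) / 4) + (1 - ξ) * (1 / 2) =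
      ξ * ((Complex.exp y + Complex.exp (-y)) / 4) + (1 - ξ) / 2 := by ring
  rw [e] at h3
  exact h3

/-- the derivative is in a half plane -/
lemma bK_re {ξ : ℂ} (hξ : ‖ξ‖ ^ 2 ≤ ξ.re) (hξ0 : ξ ≠ 0) {y : ℂ} (hy : |y.im| < Real.pi / 2) :
    0 < ((starRingEnd ℂ) ξ *
      (ξ * ((Complex.exp y + Complex.exp (-y)) / 4) + (1 - ξ) / 2)).re := by
  have hn : (starRingEnd ℂ) ξ * ξ = ((‖ξ‖ ^ 2 : ℝ) : ℂ) := by
    rw [mul_comm, Complex.mul_conj, Complex.normSq_eq_norm_sq]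
  have e : (starRingEnd ℂ) ξ * (ξ * ((Complex.exp y + Complex.exp (-y)) / 4) + (1 - ξ) / 2) =
      ((‖ξ‖ ^ 2 / 4 : ℝ) : ℂ) * (Complex.exp y + Complex.exp (-y)) +
        (((1 / 2 : ℝ) : ℂ) * (starRingEnd ℂ) ξ - ((‖ξ‖ ^ 2 / 2 : ℝ) : ℂ)) := by
    have h1 : (starRingEnd ℂ) ξ * (ξ * ((Complex.exp y + Complex.exp (-y)) / 4) + (1 - ξ) / 2) =
        ((starRingEnd ℂ) ξ * ξ) * ((Complex.exp y + Complex.exp (-y)) / 4) +
          ((starRingEnd ℂ) ξ - (starRingEnd ℂ) ξ * ξ) / 2 := by ring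
    rw [h1, hn]
    push_cast
    ring
  rw [e, Complex.add_re, Complex.re_ofReal_mul, Complex.sub_re, Complex.re_ofReal_mul,
    Complex.conj_re, Complex.ofReal_re, Complex.add_re, Complex.exp_re, Complex.exp_re]
  have hc : 0 < Real.cos y.im := by
    apply Real.cos_pos_of_mem_Ioo
    rw [abs_lt] at hy
    exact ⟨by linarith [hy.1], hy.2⟩
  have hc2 : Real.cos (-y).im = Real.cos y.im := by
    rw [Complex.neg_im, Real.cos_neg]
  rw [hc2]
  have h2 : 0 < ‖ξ‖ ^ 2 := by positivity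
  have h3 : 0 < Real.exp y.re * Real.cos y.im + Real.exp (-y).re * Real.cos y.im := by
    have := Real.exp_pos y.re
    have := Real.exp_pos (-y).re
    positivity
  have h4 : 0 < ‖ξ‖ ^ 2 / 4 * (Real.exp y.re * Real.cos y.im + Real.exp (-y).re * Real.cos y.im) := by
    positivity
  linarith

lemma bK_inj {ξ : ℂ} (hξ : ‖ξ‖ ^ 2 ≤ ξ.re) (hξ0 : ξ ≠ 0) {y1 y2 : ℂ}
    (h1 : |y1.im| < Real.pi / 2) (h2 : |y2.im| < Real.pi / 2) (h : bK ξ y1 = bK ξ y2) :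
    y1 = y2 := by
  by_contra hne
  set D : ℂ := y2 - y1 with hD
  have hD0 : D ≠ 0 := sub_ne_zero.2 (fun e => hne e.symm)
  set φ : ℝ → ℝ := fun t => ((starRingEnd ℂ) ξ * (starRingEnd ℂ) D *
    bK ξ (y1 + (t : ℂ) * D)).re with hφ
  have hder : ∀ t : ℝ, HasDerivAt φ (((starRingEnd ℂ) ξ * (starRingEnd ℂ) D *
      ((ξ * ((Complex.exp (y1 + (t : ℂ) * D) + Complex.exp (-(y1 + (t : ℂ) * D))) / 4) +
        (1 - ξ) / 2) * D)).re) t := by
    intro t
    have h3 : HasDerivAt (fun s : ℝ => y1 + (s : ℂ) * D) D t := by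
      have := ((Complex.ofRealCLM.hasDerivAt (x := t)).mul_const D).const_add y1
      simpa using this
    have h4 := (bK_deriv ξ (y1 + (t : ℂ) * D)).comp t h3
    have h5 := h4.const_mul ((starRingEnd ℂ) ξ * (starRingEnd ℂ) D)
    exact Complex.reCLM.hasFDerivAt.comp_hasDerivAt t h5
  have hpos : ∀ t ∈ Icc (0 : ℝ) 1, 0 < (((starRingEnd ℂ) ξ * (starRingEnd ℂ) D *
      ((ξ * ((Complex.exp (y1 + (t : ℂ) * D) + Complex.exp (-(y1 + (t : ℂ) * D))) / 4) +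
        (1 - ξ) / 2) * D)).re) := by
    intro t ht
    have him : |(y1 + (t : ℂ) * D).im| < Real.pi / 2 := by
      have e : (y1 + (t : ℂ) * D).im = (1 - t) * y1.im + t * y2.im := by
        rw [Complex.add_im, Complex.im_ofReal_mul, hD, Complex.sub_im]
        ring
      rw [e, abs_lt]
      rw [abs_lt] at h1 h2
      obtain ⟨ht0, ht1⟩ := ht
      have h3 := (convex_Ioo (-(Real.pi / 2)) (Real.pi / 2)) h1 h2 (sub_nonneg.2 ht1) ht0
        (by ring)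
      simpa [smul_eq_mul] using h3
    have h6 := bK_re hξ hξ0 him
    set K := ξ * ((Complex.exp (y1 + (t : ℂ) * D) + Complex.exp (-(y1 + (t : ℂ) * D))) / 4) +
        (1 - ξ) / 2 with hK
    have e : (starRingEnd ℂ) ξ * (starRingEnd ℂ) D * (K * D) =
        ((‖D‖ ^ 2 : ℝ) : ℂ) * ((starRingEnd ℂ) ξ * K) := by
      have h7 : (starRingEnd ℂ) D * D = ((‖D‖ ^ 2 : ℝ) : ℂ) := by
        rw [mul_comm, Complex.mul_conj, Complex.normSq_eq_norm_sq]
      rw [← h7]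
      ring
    rw [e, Complex.re_ofReal_mul]
    have : 0 < ‖D‖ ^ 2 := by positivity
    positivity
  have hmono : StrictMonoOn φ (Icc 0 1) := by
    apply strictMonoOn_of_deriv_pos (convex_Icc 0 1)
    · exact fun t _ => (hder t).continuousAt.continuousWithinAt
    · intro t ht
      rw [interior_Icc] at ht
      rw [(hder t).deriv]
      exact hpos t ⟨ht.1.le, ht.2.le⟩
  have h8 : φ 0 < φ 1 := hmono ⟨le_rfl, zero_le_one⟩ ⟨zero_le_one, le_rfl⟩ zero_lt_one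
  have h9 : φ 0 = φ 1 := by
    simp only [hφ]
    have e1 : y1 + ((0 : ℝ) : ℂ) * D = y1 := by simp
    have e2 : y1 + ((1 : ℝ) : ℂ) * D = y2 := by simp [hD]
    rw [e1, e2, h]
  exact absurd h9 h8.ne

/-- the odd function -/
noncomputable def bF (ξ ζ : ℂ) : ℂ :=
  ξ * (ζ / (1 - ζ ^ 2)) + (1 - ξ) * (Complex.log ((1 + ζ) / (1 - ζ)) / 2)

lemma cay_re {ζ : ℂ} (hζ : ‖ζ‖ < 1) : 0 < ((1 + ζ) / (1 - ζ)).re := by
  have h1 : (1 - ζ) ≠ 0 := one_sub_ne hζ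
  have h2 : ((1 + ζ) / (1 - ζ)).re = (1 - ‖ζ‖ ^ 2) / Complex.normSq (1 - ζ) := by
    rw [Complex.div_re, ← Complex.normSq_eq_norm_sq, Complex.normSq_apply ζ]
    simp only [Complex.add_re, Complex.one_re, Complex.sub_re, Complex.add_im, Complex.one_im,
      Complex.sub_im]
    have h3 : Complex.normSq (1 - ζ) ≠ 0 := by
      rw [Ne, Complex.normSq_eq_zero]; exact h1
    field_simp
    ring
  rw [h2]
  have h3 : 0 < Complex.normSq (1 - ζ) := Complex.normSq_pos.2 h1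
  have h4 : ‖ζ‖ ^ 2 < 1 := by
    have := norm_nonneg ζ
    nlinarith
  exact div_pos (by linarith) h3

lemma bF_eq {ξ ζ : ℂ} (hζ : ‖ζ‖ < 1) :
    bF ξ ζ = bK ξ (Complex.log ((1 + ζ) / (1 - ζ))) := by
  have h1 : (1 - ζ) ≠ 0 := one_sub_ne hζ
  have h1' : (1 + ζ) ≠ 0 := by
    have := one_sub_ne (z := -ζ) (by rwa [norm_neg])
    rwa [sub_neg_eq_add] at this
  have h2 : (1 + ζ) / (1 - ζ) ≠ 0 := div_ne_zero h1' h1
  have h3 : (1 : ℂ) - ζ ^ 2 ≠ 0 := by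
    have : (1 : ℂ) - ζ ^ 2 = (1 - ζ) * (1 + ζ) := by ring
    rw [this]
    exact mul_ne_zero h1 h1'
  unfold bF bK
  rw [Complex.exp_neg, Complex.exp_log h2]
  congr 2
  field_simp
  ring

theorem bF_inj {ξ : ℂ} (hξ : ‖ξ‖ ^ 2 ≤ ξ.re) (hξ0 : ξ ≠ 0) : InjOn (bF ξ) (ball 0 1) := by
  intro a ha b hb hab
  rw [mem_ball_zero_iff] at ha hb
  rw [bF_eq ha, bF_eq hb] at hab
  have him : ∀ {ζ : ℂ}, ‖ζ‖ < 1 → |(Complex.log ((1 + ζ) / (1 - ζ))).im| < Real.pi / 2 := by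
    intro ζ hζ
    rw [Complex.log_im]
    exact Complex.abs_arg_lt_pi_div_two_iff.2 (Or.inl (cay_re hζ))
  have h1 := bK_inj hξ hξ0 (him ha) (him hb) hab
  have hne : ∀ {ζ : ℂ}, ‖ζ‖ < 1 → (1 + ζ) / (1 - ζ) ≠ 0 := by
    intro ζ hζ h0
    have := cay_re hζ
    rw [h0, Complex.zero_re] at this
    exact lt_irrefl _ this
  have h2 : (1 + a) / (1 - a) = (1 + b) / (1 - b) := by
    rw [← Complex.exp_log (hne ha), ← Complex.exp_log (hne hb), h1]
  rw [div_eq_div_iff (one_sub_ne ha) (one_sub_ne hb)] at h2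
  have h3 : 2 * (a - b) = 0 := by linear_combination h2
  have h4 : (2 : ℂ) ≠ 0 := by norm_num
  exact sub_eq_zero.1 ((mul_eq_zero.1 h3).resolve_left h4)

end Pool.Agent.MSC
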