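import Pool.Agent.MSC.Final

/-!
MP_1ee37d_an: the derivative of a convex function is bounded below, `|g'(z)| ≥ 1/4`.
-/

set_option autoImplicit false

namespace Pool.Agent.MSC

open Complex Metric Set Filter Topology Pool.Agent.StarN

/-- Harnack's lower bound for the real part -/
lemma re_lower {p : ℂ → ℂ} (hp : DifferentiableOn ℂ p (ball 0 1)) (h0 : p 0 = 1)
    (hre : ∀ w ∈ ball (0 : ℂ) 1, 0 ≤ (p w).re) {w : ℂ} (hw : w ∈ ball (0 : ℂ) 1) :
    (1 - ‖w‖) / (1 + ‖w‖) ≤ (p w).re := by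
  have hne : ∀ x ∈ ball (0 : ℂ) 1, p x + 1 ≠ 0 := by
    intro x hx h
    have := congrArg Complex.re h
    simp only [Complex.add_re, Complex.one_re, Complex.zero_re] at this
    linarith [hre x hx]
  set φ : ℂ → ℂ := fun x => (p x - 1) / (p x + 1) with hφ
  have hd : DifferentiableOn ℂ φ (ball 0 1) := by
    intro x hx
    have h1 : DifferentiableAt ℂ p x := hp.differentiableAt (isOpen_ball.mem_nhds hx)
    exact ((h1.sub_const _).div (h1.add_const _) (hne x hx)).differentiableWithinAt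
  have hsq : ∀ x : ℂ, ‖p x + 1‖ ^ 2 - ‖p x - 1‖ ^ 2 = 4 * (p x).re := by
    intro x
    rw [← Complex.normSq_eq_norm_sq, ← Complex.normSq_eq_norm_sq, Complex.normSq_apply,
      Complex.normSq_apply]
    simp only [Complex.add_re, Complex.add_im, Complex.sub_re, Complex.sub_im, Complex.one_re,
      Complex.one_im]
    ring
  have hmaps : MapsTo φ (ball 0 1) (closedBall 0 1) := by
    intro x hx
    rw [mem_closedBall_zero_iff, hφ, norm_div]
    apply div_le_one_of_le₀ _ (norm_nonneg _)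
    have h1 := hsq x
    have h2 := hre x hx
    have h3 := norm_nonneg (p x + 1)
    have h4 := norm_nonneg (p x - 1)
    nlinarith
  have hφ0 : φ 0 = 0 := by simp [hφ, h0]
  have hw1 : ‖w‖ < 1 := mem_ball_zero_iff.mp hw
  have h3 := Complex.norm_le_norm_of_mapsTo_ball hd hmaps hφ0 hw1
  rw [hφ] at h3
  simp only at h3
  rw [norm_div, div_le_iff₀ (norm_pos_iff.mpr (hne w hw))] at h3
  have h4 := hsq w
  have hN : 0 < ‖p w + 1‖ := norm_pos_iff.mpr (hne w hw)
  -- `‖p + 1‖ ≥ 2 / (1 + ‖w‖)`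
  have h5 : 2 ≤ ‖p w + 1‖ + ‖p w - 1‖ := by
    have := norm_sub_le (p w + 1) (p w - 1)
    have e : p w + 1 - (p w - 1) = 2 := by ring
    rw [e] at this
    simpa using this
  have hw0 := norm_nonneg w
  have h6 : 2 ≤ (1 + ‖w‖) * ‖p w + 1‖ := by linarith
  have h7 : (1 - ‖w‖ ^ 2) * ‖p w + 1‖ ^ 2 ≤ 4 * (p w).re := by
    have h8 : ‖p w - 1‖ ^ 2 ≤ (‖w‖ * ‖p w + 1‖) ^ 2 :=
      pow_le_pow_left₀ (norm_nonneg _) h3 2
    nlinarith
  rw [div_le_iff₀ (by linarith)]
  have h9 : 4 ≤ ((1 + ‖w‖) * ‖p w + 1‖) ^ 2 := by nlinarith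
  have h10 : (1 - ‖w‖) * 4 ≤ (1 - ‖w‖) * ((1 + ‖w‖) * ‖p w + 1‖) ^ 2 :=
    mul_le_mul_of_nonneg_left h9 (by linarith)
  have h11 : (1 - ‖w‖) * ((1 + ‖w‖) * ‖p w + 1‖) ^ 2 =
      (1 + ‖w‖) * ((1 - ‖w‖ ^ 2) * ‖p w + 1‖ ^ 2) := by ring
  have h12 : (1 + ‖w‖) * ((1 - ‖w‖ ^ 2) * ‖p w + 1‖ ^ 2) ≤ (1 + ‖w‖) * (4 * (p w).re) :=
    mul_le_mul_of_nonneg_left h7 (by linarith)
  linarith

lemma re_log_lower {q : ℂ → ℂ} (hq : DifferentiableOn ℂ q (ball 0 1)) (h0 : q 0 = 0)
    (hre : ∀ z ∈ ball (0 : ℂ) 1, -1 ≤ (z * deriv q z).re) {z : ℂ} (hz : z ∈ ball (0 : ℂ) 1) :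
    -(2 * Real.log 2) ≤ (q z).re := by
  set r : ℝ := ‖z‖ with hr
  have hr1 : r < 1 := by rw [hr]; exact mem_ball_zero_iff.mp hz
  have hr0 : 0 ≤ r := norm_nonneg z
  have hqd : DifferentiableOn ℂ (deriv q) (ball 0 1) := hq.deriv isOpen_ball
  have hmem : ∀ t ∈ Icc (0 : ℝ) 1, (t : ℂ) * z ∈ ball (0 : ℂ) 1 := by
    intro t ht
    rw [mem_ball_zero_iff, norm_mul, Complex.norm_real, Real.norm_eq_abs, abs_of_nonneg ht.1]
    nlinarith [norm_nonneg z, ht.1, ht.2]
  have hlow : ∀ w ∈ ball (0 : ℂ) 1, -(2 * ‖w‖ / (1 + ‖w‖)) ≤ (w * deriv q w).re := by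
    intro w hw
    have h1 := re_lower (p := fun x => 1 + x * deriv q x)
      ((differentiableOn_id.mul hqd).const_add 1) (by simp)
      (fun x hx => by
        rw [Complex.add_re, Complex.one_re]
        linarith [hre x hx]) hw
    rw [Complex.add_re, Complex.one_re] at h1
    have hw0 := norm_nonneg w
    have e : (1 - ‖w‖) / (1 + ‖w‖) = 1 - 2 * ‖w‖ / (1 + ‖w‖) := by
      field_simp
      ring
    linarith
  have hder : ∀ t ∈ Icc (0 : ℝ) 1, HasDerivAt (fun t : ℝ => (q ((t : ℂ) * z)).re)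
      (deriv q ((t : ℂ) * z) * z).re t := by
    intro t ht
    have h2 : HasDerivAt q (deriv q ((t : ℂ) * z)) ((t : ℂ) * z) :=
      (hq.differentiableAt (isOpen_ball.mem_nhds (hmem t ht))).hasDerivAt
    have h3 : HasDerivAt (fun t : ℝ => (t : ℂ) * z) z t := by
      have := (Complex.ofRealCLM.hasDerivAt (x := t)).mul_const z
      simpa using this
    have h4 := h2.comp t h3
    exact Complex.reCLM.hasFDerivAt.comp_hasDerivAt t h4
  have hder2 : ∀ t ∈ Icc (0 : ℝ) 1, HasDerivAt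
      (fun t : ℝ => (q ((t : ℂ) * z)).re + 2 * Real.log (1 + t * r))
      ((deriv q ((t : ℂ) * z) * z).re + 2 * (r / (1 + t * r))) t := by
    intro t ht
    have h1 : (1 + t * r) ≠ 0 := by
      have : 0 ≤ t * r := mul_nonneg ht.1 hr0
      positivity
    have h2 : HasDerivAt (fun t : ℝ => 1 + t * r) r t := by
      have := ((hasDerivAt_id t).mul_const r).const_add 1
      simpa using this
    exact (hder t ht).add ((h2.log h1).const_mul 2)
  have hmono : MonotoneOn (fun t : ℝ => (q ((t : ℂ) * z)).re + 2 * Real.log (1 + t * r))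
      (Icc 0 1) := by
    apply monotoneOn_of_deriv_nonneg (convex_Icc 0 1)
    · exact fun t ht => (hder2 t ht).continuousAt.continuousWithinAt
    · intro t ht
      rw [interior_Icc] at ht
      exact (hder2 t ⟨ht.1.le, ht.2.le⟩).differentiableAt.differentiableWithinAt
    · intro t ht
      rw [interior_Icc] at ht
      have ht' : t ∈ Icc (0 : ℝ) 1 := ⟨ht.1.le, ht.2.le⟩
      rw [(hder2 t ht').deriv]
      have h1 := hlow _ (hmem t ht')
      have h2 : ‖(t : ℂ) * z‖ = t * r := by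
        rw [norm_mul, Complex.norm_real, Real.norm_eq_abs, abs_of_pos ht.1]
      rw [h2] at h1
      have h3 : ((t : ℂ) * z * deriv q ((t : ℂ) * z)).re = t * (deriv q ((t : ℂ) * z) * z).re := by
        have : (t : ℂ) * z * deriv q ((t : ℂ) * z) = (t : ℂ) * (deriv q ((t : ℂ) * z) * z) := by
          ring
        rw [this, Complex.re_ofReal_mul]
      rw [h3] at h1
      have h4 : 2 * (t * r) / (1 + t * r) = t * (2 * (r / (1 + t * r))) := by ring
      rw [h4] at h1
      have h5 : 0 ≤ t * ((deriv q ((t : ℂ) * z) * z).re + 2 * (r / (1 + t * r))) := by linarith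
      exact nonneg_of_mul_nonneg_right h5 ht.1
  have h1 := hmono (left_mem_Icc.2 zero_le_one) (right_mem_Icc.2 zero_le_one) zero_le_one
  simp only [Complex.ofReal_zero, zero_mul, h0, Complex.zero_re, add_zero, Real.log_one,
    mul_zero, Complex.ofReal_one, one_mul] at h1
  have h2 : Real.log (1 + r) ≤ Real.log 2 := Real.log_le_log (by linarith) (by linarith)
  linarith

/-- `|g'| ≥ 1/4` for convex functions -/
theorem deriv_lower {G : ℂ → ℂ} (hG : G ∈ ClassC) {z : ℂ} (hz : z ∈ ball (0 : ℂ) 1) :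
    1 / 4 ≤ ‖deriv G z‖ := by
  have hd := hG.1.1
  have hi := hG.1.2.1
  have hd2 : DifferentiableOn ℂ (deriv G) (ball 0 1) := hd.deriv isOpen_ball
  obtain ⟨h, hh, hh0, hexp⟩ := exists_log_ball hd2 (fun w hw => deriv_ne hd hi hw)
  rw [hG.1.2.2.2] at hexp
  have hder : ∀ w ∈ ball (0 : ℂ) 1, deriv h w = deriv (deriv G) w / deriv G w := by
    intro w hw
    have h1 : HasDerivAt h (deriv h w) w :=
      (hh.differentiableAt (isOpen_ball.mem_nhds hw)).hasDerivAt
    have h2 : HasDerivAt (deriv G) (1 * (Complex.exp (h w) * deriv h w)) w := by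
      refine (h1.cexp.const_mul 1).congr_of_eventuallyEq ?_
      filter_upwards [isOpen_ball.mem_nhds hw] with x hx
      exact hexp x hx
    rw [h2.deriv, hexp w hw]
    have := Complex.exp_ne_zero (h w)
    field_simp
  have h3 := re_log_lower hh hh0 (fun w hw => by
    have h4 := re_study hG hw
    rw [hder w hw]
    have e : w * (deriv (deriv G) w / deriv G w) =
        (1 + w * deriv (deriv G) w / deriv G w) - 1 := by ring
    rw [e, Complex.sub_re, Complex.one_re]
    linarith) hz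
  rw [hexp z hz, one_mul, Complex.norm_exp]
  have h4 : Real.exp (-(2 * Real.log 2)) = 1 / 4 := by
    have e : -(2 * Real.log 2) = Real.log (1 / 4) := by
      rw [show (1 / 4 : ℝ) = (2 ^ 2)⁻¹ by norm_num, Real.log_inv, Real.log_pow]
      push_cast
      ring
    rw [e, Real.exp_log (by norm_num)]
  rw [← h4]
  exact Real.exp_le_exp.2 h3

end Pool.Agent.MSC
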