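import Pool.Agent.MSC.Final

/-!
MP_1ee37d_an: the series with coefficients `n ^ 2 h_n lam_n`, where `h_n = 1/2 + ... + 1/n`, is
bounded by an absolute constant.
-/

set_option autoImplicit false

namespace Pool.Agent.MSC

open Complex Metric Set Filter Topology Pool.Agent.StarN

/-- the derivative of `q μ n` at `μ = 1` -/
noncomputable def hh : ℕ → ℂ
  | 0 => 0
  | 1 => 0
  | (n + 2) => hh (n + 1) + 1 / (n + 2)

lemma q_hasDerivAt : ∀ n, HasDerivAt (fun μ => q μ n) (hh n) 1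
  | 0 => hasDerivAt_const (1 : ℂ) (0 : ℂ)
  | 1 => hasDerivAt_const (1 : ℂ) (1 : ℂ)
  | (n + 2) => by
    have h1 := q_hasDerivAt (n + 1)
    have h2 : HasDerivAt (fun μ : ℂ => μ + (n + 1)) 1 1 := (hasDerivAt_id (1 : ℂ)).add_const _
    have h3 := (h1.mul h2).div_const ((n : ℂ) + 2)
    have h4 : (n : ℂ) + 2 ≠ 0 := by exact_mod_cast (by omega : n + 2 ≠ 0)
    have e : (hh (n + 1) * (1 + (n + 1)) + q 1 (n + 1) * 1) / ((n : ℂ) + 2) = hh (n + 2) := by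
      have : hh (n + 2) = hh (n + 1) + 1 / (n + 2) := rfl
      rw [this, q_one]
      field_simp
      ring
    rw [e] at h3
    exact h3

variable {lam : ℕ → ℂ}

lemma IsMult.near (h : IsMult lam) {z : ℂ} (hz : z ∈ ball (0 : ℂ) 1) {μ : ℂ}
    (hμ : ‖μ - 1‖ ≤ 1 / 2) : ‖Gs (b2 lam) μ z‖ ≤ 27 * C1 := by
  have hC1 : 0 ≤ C1 := by unfold C1; positivity
  have hμ' : μ ∈ ball (1 : ℂ) 1 := by rw [mem_ball_iff_norm]; linarith
  rcases eq_or_ne z 0 with rfl | hz0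
  · obtain ⟨g, -, hgz⟩ := h.fam hμ'
    rw [(hgz 0 hz).2, zero_mul, norm_zero]
    positivity
  have hz1 := mem_ball_zero_iff.mp hz
  have hr1 : Rad (b1 lam) := h.rad.mul_nat
  have hr2 : Rad (b2 lam) := hr1.mul_nat
  have hsub : ball (1 : ℂ) 1 ⊆ ball (0 : ℂ) 2 := fun μ hμ =>
    mem_ball_zero_iff.mpr (norm_lt_two hμ)
  have hd1 : DifferentiableOn ℂ (fun μ => Gs (b1 lam) μ z) (ball 1 1) := (hr1.Gs_diff hz1).mono hsub
  have hd2 : DifferentiableOn ℂ (fun μ => Gs (b2 lam) μ z) (ball 1 1) := (hr2.Gs_diff hz1).mono hsub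
  have hw : ∀ μ ∈ ball (1 : ℂ) 1, Gs (b1 lam) μ z / z ∈ slitPlane := by
    intro μ hμ
    obtain ⟨g, hg, hgz⟩ := h.fam hμ
    rw [(hgz z hz).1, mul_div_cancel_left₀ _ hz0]
    exact deriv_slit hg hz
  have hne : ∀ μ ∈ ball (1 : ℂ) 1, Gs (b1 lam) μ z ≠ 0 := by
    intro μ hμ h0
    have := slitPlane_ne_zero (hw μ hμ)
    rw [h0, zero_div] at this
    exact this rfl
  have hΦ : ∀ μ ∈ ball (1 : ℂ) 1, 0 ≤ (Gs (b2 lam) μ z / Gs (b1 lam) μ z).re := by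
    intro μ hμ
    obtain ⟨g, hg, hgz⟩ := h.fam hμ
    have h1 := slitPlane_ne_zero (deriv_slit hg hz)
    rw [(hgz z hz).1, (hgz z hz).2, mul_div_mul_left _ _ hz0, add_div, div_self h1]
    exact re_study hg hz
  have e1 := (harnack_slit (hd1.div_const z) hw hμ').1
  have e2 := (harnack (hd2.div hd1 hne) hΦ hμ').1
  simp only [Pi.div_apply] at e2
  have hzn : 0 < ‖z‖ := norm_pos_iff.mpr hz0
  rw [norm_div, norm_div] at e1 e2
  set x := ‖μ - 1‖ with hx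
  have hx0 : 0 ≤ x := norm_nonneg _
  have e3 : (1 - x) ^ 2 * ‖Gs (b1 lam) μ z‖ ≤ (1 + x) ^ 2 * ‖Gs (b1 lam) 1 z‖ := by
    rw [mul_div_assoc', mul_div_assoc', div_le_div_iff_of_pos_right hzn] at e1
    exact e1
  have hp : 0 < ‖Gs (b1 lam) μ z‖ := norm_pos_iff.mpr (hne μ hμ')
  have hp1 : 0 < ‖Gs (b1 lam) 1 z‖ := norm_pos_iff.mpr (hne 1 one_mem)
  have e4 : (1 - x) * (‖Gs (b2 lam) μ z‖ * ‖Gs (b1 lam) 1 z‖) ≤
      (1 + x) * (‖Gs (b2 lam) 1 z‖ * ‖Gs (b1 lam) μ z‖) := by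
    rw [← mul_div_assoc, ← mul_div_assoc, div_le_div_iff₀ hp hp1] at e2
    linarith
  have hb := h.bdd hz
  have hN0 := norm_nonneg (Gs (b2 lam) μ z)
  have hN1 := norm_nonneg (Gs (b2 lam) 1 z)
  have f1 : ‖Gs (b1 lam) μ z‖ ≤ 9 * ‖Gs (b1 lam) 1 z‖ := by
    have h1 : 1 / 4 ≤ (1 - x) ^ 2 := by nlinarith
    have h2 : (1 + x) ^ 2 ≤ 9 / 4 := by nlinarith
    nlinarith
  have f2 : ‖Gs (b2 lam) μ z‖ * ‖Gs (b1 lam) 1 z‖ ≤
      3 * (‖Gs (b2 lam) 1 z‖ * ‖Gs (b1 lam) μ z‖) := by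
    have h3 : 0 ≤ ‖Gs (b2 lam) μ z‖ * ‖Gs (b1 lam) 1 z‖ := by positivity
    have h4 : 0 ≤ ‖Gs (b2 lam) 1 z‖ * ‖Gs (b1 lam) μ z‖ := by positivity
    nlinarith
  have f3 : ‖Gs (b2 lam) μ z‖ * ‖Gs (b1 lam) 1 z‖ ≤
      (27 * ‖Gs (b2 lam) 1 z‖) * ‖Gs (b1 lam) 1 z‖ := by
    have := mul_le_mul_of_nonneg_left f1 hN1
    linarith
  have f4 := le_of_mul_le_mul_right f3 hp1
  linarith

/-- the series with the coefficients `n ^ 2 h_n lam_n` -/
theorem IsMult.bddD (h : IsMult lam) {z : ℂ} (hz : z ∈ ball (0 : ℂ) 1) :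
    ∃ D : ℂ, ‖D‖ ≤ 54 * C1 ∧ HasSum (fun n : ℕ => (n : ℂ) ^ 2 * lam n * hh n * z ^ n) D := by
  have hz1 := mem_ball_zero_iff.mp hz
  have hr1 : Rad (b1 lam) := h.rad.mul_nat
  have hr2 : Rad (b2 lam) := hr1.mul_nat
  refine ⟨deriv (fun μ => Gs (b2 lam) μ z) 1, ?_, ?_⟩
  · have hd : DiffContOnCl ℂ (fun μ => Gs (b2 lam) μ z) (ball 1 (1 / 2)) := by
      refine ((hr2.Gs_diff hz1).mono ?_).diffContOnCl
      intro w hw
      have hw' := closure_ball_subset_closedBall hw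
      rw [mem_closedBall_iff_norm] at hw'
      rw [mem_ball_zero_iff]
      have h1 : ‖w‖ ≤ ‖w - 1‖ + ‖(1 : ℂ)‖ := by
        have := norm_add_le (w - 1) 1
        simpa using this
      rw [norm_one] at h1
      linarith
    have h2 := Complex.norm_deriv_le_of_forall_mem_sphere_norm_le (by norm_num : (0 : ℝ) < 1 / 2)
      hd (C := 27 * C1) (fun w hw => by
        rw [mem_sphere_iff_norm] at hw
        exact h.near hz hw.le)
    refine h2.trans (le_of_eq ?_)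
    ring
  · have h3 := hasSum_deriv_of_summable_norm (F := fun (n : ℕ) (μ : ℂ) => b2 lam n * q μ n * z ^ n)
      (hr2.summable_bd (norm_nonneg z) hz1)
      (fun m => (((q_differentiable m).const_mul _).mul_const _).differentiableOn) isOpen_ball
      (fun m μ hμ => term_le (mem_ball_zero_iff.mp hμ).le m)
      (show (1 : ℂ) ∈ ball (0 : ℂ) 2 by rw [mem_ball_zero_iff]; norm_num)
    have e : (fun n : ℕ => (n : ℂ) ^ 2 * lam n * hh n * z ^ n) =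
        fun n : ℕ => deriv (fun μ : ℂ => b2 lam n * q μ n * z ^ n) 1 := by
      funext n
      rw [(((q_hasDerivAt n).const_mul (b2 lam n)).mul_const (z ^ n)).deriv, b2, b1]
      ring
    rw [e]
    exact h3

end Pool.Agent.MSC
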