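import Pool.Agent.MSC.BzA

/-!
MP_1ee37d_an: the functions `f_ξ(z) = F(√z) ^ 2` are in the class `S`; their Taylor coefficients.
-/

set_option autoImplicit false

namespace Pool.Agent.MSC

open Complex Metric Set Filter Topology Pool.Agent.StarN

noncomputable def aj (j : ℕ) : ℂ := 1 / (2 * (j : ℂ) + 1)

lemma aj_ne (j : ℕ) : (2 * (j : ℂ) + 1) ≠ 0 := by
  exact_mod_cast (by omega : 2 * j + 1 ≠ 0)

lemma aj_norm (j : ℕ) : ‖aj j‖ ≤ 1 := by
  unfold aj
  rw [norm_div, norm_one]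
  have e : (2 * (j : ℂ) + 1) = ((2 * j + 1 : ℕ) : ℂ) := by push_cast; ring
  rw [e, Complex.norm_natCast]
  apply div_le_one_of_le₀ _ (Nat.cast_nonneg _)
  exact_mod_cast (by omega : 1 ≤ 2 * j + 1)

lemma aj_summable {z : ℂ} (hz : ‖z‖ < 1) : Summable fun j : ℕ => ‖aj j * z ^ j‖ := by
  refine Summable.of_nonneg_of_le (fun _ => norm_nonneg _) (fun j => ?_)
    (summable_geometric_of_lt_one (norm_nonneg z) hz)
  rw [norm_mul, norm_pow]
  calc ‖aj j‖ * ‖z‖ ^ j ≤ 1 * ‖z‖ ^ j := by gcongr; exact aj_norm j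
    _ = ‖z‖ ^ j := one_mul _

noncomputable def bA (z : ℂ) : ℂ := ∑' j : ℕ, aj j * z ^ j

noncomputable def bPhi (ξ z : ℂ) : ℂ := ξ / (1 - z) + (1 - ξ) * bA z

/-- the function `f_ξ` -/
noncomputable def bf (ξ z : ℂ) : ℂ := z * bPhi ξ z ^ 2

lemma bA_hasSum {z : ℂ} (hz : ‖z‖ < 1) : HasSum (fun j : ℕ => aj j * z ^ j) (bA z) :=
  (aj_summable hz).of_norm.hasSum

/-- the logarithm -/
lemma log_eq {ζ : ℂ} (hζ : ‖ζ‖ < 1) :
    Complex.log ((1 + ζ) / (1 - ζ)) / 2 = ζ * bA (ζ ^ 2) := by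
  have hζ2 : ‖ζ ^ 2‖ < 1 := by
    rw [norm_pow]
    have := norm_nonneg ζ
    nlinarith
  have h1 : (1 - ζ) ≠ 0 := one_sub_ne hζ
  have hn : ‖-ζ‖ < 1 := by rwa [norm_neg]
  have h1' : (1 + ζ) ≠ 0 := by
    have := one_sub_ne hn
    rwa [sub_neg_eq_add] at this
  -- logarithm of the quotient
  have e1 : Complex.log ((1 + ζ) / (1 - ζ)) = Complex.log (1 + ζ) + -Complex.log (1 - ζ) := by
    have h2 : Complex.exp (Complex.log (1 + ζ) + -Complex.log (1 - ζ)) = (1 + ζ) / (1 - ζ) := by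
      rw [Complex.exp_add, Complex.exp_neg, Complex.exp_log h1', Complex.exp_log h1]
      rfl
    rw [← h2]
    have hre : ∀ {w : ℂ}, ‖w‖ < 1 → |(Complex.log (1 - w)).im| < Real.pi / 2 := by
      intro w hw
      rw [Complex.log_im]
      exact Complex.abs_arg_lt_pi_div_two_iff.2 (Or.inl (one_sub_re_pos hw))
    have h3 := hre hζ
    have h4 := hre hn
    rw [sub_neg_eq_add] at h4
    rw [abs_lt] at h3 h4
    apply Complex.log_exp
    · rw [Complex.add_im, Complex.neg_im]; linarith [h3.1, h3.2, h4.1, h4.2]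
    · rw [Complex.add_im, Complex.neg_im]; linarith [h3.1, h3.2, h4.1, h4.2]
  have h5 := (hasSum_taylorSeries_log hζ).add (hasSum_taylorSeries_neg_log hζ)
  rw [← e1] at h5
  have h6 : HasSum (fun j : ℕ => 2 * (ζ * (aj j * (ζ ^ 2) ^ j)))
      (Complex.log ((1 + ζ) / (1 - ζ))) := by
    have hinj : Function.Injective (fun j : ℕ => 2 * j + 1) := by
      intro a b h
      simp only at h
      omega
    have h7 := (hinj.hasSum_iff (f := fun n : ℕ => (-1) ^ (n + 1) * ζ ^ n / n + ζ ^ n / n)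
      (a := Complex.log ((1 + ζ) / (1 - ζ))) (fun n hn => ?_)).2 h5
    · refine h7.congr_fun (fun j => ?_)
      simp only [Function.comp]
      unfold aj
      have h8 := aj_ne j
      have h9 : ((-1 : ℂ)) ^ (2 * j + 1 + 1) = 1 := by
        rw [show 2 * j + 1 + 1 = 2 * (j + 1) by ring, pow_mul]
        simp
      rw [h9]
      push_cast
      rw [← pow_mul, pow_succ]
      field_simp
      ring
    · have heven : Even n := by
        rw [← Nat.not_odd_iff_even]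
        rintro ⟨k, hk⟩
        exact hn ⟨k, by simp only; omega⟩
      obtain ⟨k, rfl⟩ := heven
      have h9 : ((-1 : ℂ)) ^ (k + k + 1) = -1 := by
        rw [pow_succ, ← two_mul, pow_mul]
        simp
      simp only [h9]
      ring
  have h10 := ((bA_hasSum hζ2).mul_left ζ).mul_left 2
  have h11 := h6.unique h10
  rw [h11]
  ring

lemma bF_eq_bPhi {ξ ζ : ℂ} (hζ : ‖ζ‖ < 1) : bF ξ ζ = ζ * bPhi ξ (ζ ^ 2) := by
  unfold bF bPhi
  rw [log_eq hζ]
  ring

lemma bf_sq {ξ ζ : ℂ} (hζ : ‖ζ‖ < 1) : bf ξ (ζ ^ 2) = bF ξ ζ ^ 2 := by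
  rw [bF_eq_bPhi hζ, bf]
  ring

lemma bF_neg {ξ ζ : ℂ} (hζ : ‖ζ‖ < 1) : bF ξ (-ζ) = -bF ξ ζ := by
  rw [bF_eq_bPhi hζ, bF_eq_bPhi (by rwa [norm_neg]), neg_sq]
  ring

lemma exists_sqrt {z : ℂ} (hz : z ∈ ball (0 : ℂ) 1) : ∃ ζ : ℂ, ‖ζ‖ < 1 ∧ ζ ^ 2 = z := by
  obtain ⟨ζ, hζ⟩ := IsAlgClosed.exists_pow_nat_eq z (n := 2) (by norm_num)
  refine ⟨ζ, ?_, hζ⟩
  rw [mem_ball_zero_iff, ← hζ, norm_pow] at hz
  by_contra h
  push Not at h
  nlinarith

theorem bf_injOn {ξ : ℂ} (hξ : ‖ξ‖ ^ 2 ≤ ξ.re) (hξ0 : ξ ≠ 0) : InjOn (bf ξ) (ball 0 1) := by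
  intro a ha b hb hab
  obtain ⟨α, hα, rfl⟩ := exists_sqrt ha
  obtain ⟨β, hβ, rfl⟩ := exists_sqrt hb
  rw [bf_sq hα, bf_sq hβ] at hab
  have hma : α ∈ ball (0 : ℂ) 1 := mem_ball_zero_iff.2 hα
  have hmb : β ∈ ball (0 : ℂ) 1 := mem_ball_zero_iff.2 hβ
  have hmb' : -β ∈ ball (0 : ℂ) 1 := mem_ball_zero_iff.2 (by rwa [norm_neg])
  rcases sq_eq_sq_iff_eq_or_eq_neg.1 hab with h | h
  · rw [bF_inj hξ hξ0 hma hmb h]
  · rw [← bF_neg hβ] at h
    rw [bF_inj hξ hξ0 hma hmb' h, neg_sq]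

/-! ### coefficients -/

/-- `b_n = 1 + 1/3 + ... + 1/(2n-1)` -/
noncomputable def bb (n : ℕ) : ℂ := ∑ j ∈ Finset.range n, aj j

/-- the coefficients of `f_ξ` -/
noncomputable def ca (ξ : ℂ) (n : ℕ) : ℂ :=
  ξ ^ 2 * n + 2 * ξ * (1 - ξ) * bb n + (1 - ξ) ^ 2 * (bb n / n)

lemma shift_hasSum {u v : ℕ → ℂ} {z S : ℂ} (h0 : v 0 = 0) (h : ∀ n, v (n + 1) = u n)
    (hS : HasSum (fun n => u n * z ^ n) S) : HasSum (fun n => v n * z ^ n) (z * S) := by
  have h1 := hS.mul_left z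
  refine (hasSum_nat_add_iff' 1).mp ?_
  simp only [Finset.range_one, Finset.sum_singleton, h0, zero_mul, sub_zero]
  refine h1.congr_fun (fun n => ?_)
  rw [h]
  ring

lemma prod_hasSum {u v : ℕ → ℂ} {z S T : ℂ} (hu : Summable fun n => ‖u n * z ^ n‖)
    (hv : Summable fun n => ‖v n * z ^ n‖) (hS : HasSum (fun n => u n * z ^ n) S)
    (hT : HasSum (fun n => v n * z ^ n) T) :
    HasSum (fun n => (∑ k ∈ Finset.range (n + 1), u k * v (n - k)) * z ^ n) (S * T) := by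
  have h1 := hasSum_sum_range_mul_of_summable_norm hu hv
  rw [hS.tsum_eq, hT.tsum_eq] at h1
  refine h1.congr_fun (fun n => ?_)
  rw [Finset.sum_mul]
  refine Finset.sum_congr rfl (fun k hk => ?_)
  have hk' : k ≤ n := Nat.lt_succ_iff.1 (Finset.mem_range.1 hk)
  have : z ^ n = z ^ k * z ^ (n - k) := by rw [← pow_add, Nat.add_sub_cancel' hk']
  rw [this]
  ring

lemma geo_summable {z : ℂ} (hz : ‖z‖ < 1) : Summable fun n : ℕ => ‖(1 : ℂ) * z ^ n‖ := by
  simp only [one_mul, norm_pow]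
  exact summable_geometric_of_lt_one (norm_nonneg z) hz

lemma geo_hasSum {z : ℂ} (hz : ‖z‖ < 1) : HasSum (fun n : ℕ => (1 : ℂ) * z ^ n) (1 / (1 - z)) := by
  simp only [one_mul, one_div]
  exact hasSum_geometric_of_norm_lt_one hz

lemma sum_aj_mul (m : ℕ) : ∑ k ∈ Finset.range (m + 1), aj k * aj (m - k) =
    bb (m + 1) / ((m + 1 : ℕ) : ℂ) := by
  have hm : (((m + 1 : ℕ) : ℂ)) ≠ 0 := by exact_mod_cast (by omega : m + 1 ≠ 0)
  have h1 : ∀ k ∈ Finset.range (m + 1), aj k * aj (m - k) =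
      1 / (2 * ((m + 1 : ℕ) : ℂ)) * (aj k + aj (m - k)) := by
    intro k hk
    have hk' : k ≤ m := Nat.lt_succ_iff.1 (Finset.mem_range.1 hk)
    unfold aj
    have h2 := aj_ne k
    have h3 := aj_ne (m - k)
    rw [Nat.cast_sub hk'] at h3 ⊢
    field_simp
    push_cast
    ring
  rw [Finset.sum_congr rfl h1, ← Finset.mul_sum, Finset.sum_add_distrib]
  have h4 : ∑ k ∈ Finset.range (m + 1), aj (m - k) = ∑ k ∈ Finset.range (m + 1), aj k := by
    have := Finset.sum_range_reflect (fun k => aj k) (m + 1)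
    rw [← this]
    refine Finset.sum_congr rfl (fun k _ => ?_)
    rw [Nat.add_sub_cancel]
  rw [h4, ← two_mul]
  unfold bb
  field_simp

/-- the power series of `f_ξ` -/
theorem bf_hasSum (ξ : ℂ) {z : ℂ} (hz : z ∈ ball (0 : ℂ) 1) :
    HasSum (fun n => ca ξ n * z ^ n) (bf ξ z) := by
  have hz1 := mem_ball_zero_iff.mp hz
  have h1z : (1 - z) ≠ 0 := one_sub_ne hz1
  have h1 : HasSum (fun n : ℕ => (n : ℂ) * z ^ n) (z / (1 - z) ^ 2) := hasSum_koebe hz
  have h2 : HasSum (fun n : ℕ => bb n * z ^ n) (z * (1 / (1 - z) * bA z)) := by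
    refine shift_hasSum (u := fun n => ∑ k ∈ Finset.range (n + 1), 1 * aj (n - k)) (by simp [bb])
      (fun n => ?_) (prod_hasSum (geo_summable hz1) (aj_summable hz1) (geo_hasSum hz1)
        (bA_hasSum hz1))
    simp only [one_mul]
    unfold bb
    have := Finset.sum_range_reflect (fun k => aj k) (n + 1)
    rw [← this]
    refine Finset.sum_congr rfl (fun k _ => ?_)
    rw [Nat.add_sub_cancel]
  have h3 : HasSum (fun n : ℕ => bb n / n * z ^ n) (z * (bA z * bA z)) := by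
    refine shift_hasSum (u := fun n => ∑ k ∈ Finset.range (n + 1), aj k * aj (n - k)) (by simp)
      (fun n => ?_) (prod_hasSum (aj_summable hz1) (aj_summable hz1) (bA_hasSum hz1)
        (bA_hasSum hz1))
    exact (sum_aj_mul n).symm
  have h4 := ((h1.mul_left (ξ ^ 2)).add (h2.mul_left (2 * ξ * (1 - ξ)))).add
    (h3.mul_left ((1 - ξ) ^ 2))
  have e : ξ ^ 2 * (z / (1 - z) ^ 2) + 2 * ξ * (1 - ξ) * (z * (1 / (1 - z) * bA z)) +
      (1 - ξ) ^ 2 * (z * (bA z * bA z)) = bf ξ z := by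
    unfold bf bPhi
    field_simp
    ring
  rw [e] at h4
  refine h4.congr_fun (fun n => ?_)
  unfold ca
  ring

theorem tc_bf (ξ : ℂ) (n : ℕ) : tc (bf ξ) n = ca ξ n :=
  tc_of_hasSum (a := ca ξ) (fun _ hz => bf_hasSum ξ hz) n

lemma bA_diff : DifferentiableOn ℂ bA (ball 0 1) := by
  intro z hz
  have hz1 := mem_ball_zero_iff.mp hz
  obtain ⟨r, hr1, hr2⟩ := exists_between hz1
  have hr0 : 0 ≤ r := (norm_nonneg z).trans hr1.le
  have h1 : DifferentiableOn ℂ (fun z : ℂ => ∑' j : ℕ, aj j * z ^ j) (ball 0 r) := by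
    refine differentiableOn_tsum_of_summable_norm (summable_geometric_of_lt_one hr0 hr2)
      (fun j => (((differentiable_pow j)).const_mul _).differentiableOn) isOpen_ball
      (fun j w hw => ?_)
    rw [norm_mul, norm_pow]
    have := (mem_ball_zero_iff.mp hw).le
    calc ‖aj j‖ * ‖w‖ ^ j ≤ 1 * r ^ j := by gcongr; exact aj_norm j
      _ = r ^ j := one_mul _
  exact (h1.differentiableAt (isOpen_ball.mem_nhds (mem_ball_zero_iff.2 hr1))).differentiableWithinAt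

theorem bf_diff (ξ : ℂ) : DifferentiableOn ℂ (bf ξ) (ball 0 1) := by
  intro z hz
  have hz1 := mem_ball_zero_iff.mp hz
  have h1z : (1 - z) ≠ 0 := one_sub_ne hz1
  have h2 : DifferentiableAt ℂ bA z := bA_diff.differentiableAt (isOpen_ball.mem_nhds hz)
  refine DifferentiableAt.differentiableWithinAt ?_
  unfold bf bPhi
  exact differentiableAt_id.mul (((differentiableAt_const ξ).div (by fun_prop) h1z).add
    (h2.const_mul (1 - ξ)) |>.pow 2)

theorem bf_mem {ξ : ℂ} (hξ : ‖ξ‖ ^ 2 ≤ ξ.re) (hξ0 : ξ ≠ 0) : bf ξ ∈ ClassS := by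
  refine ⟨bf_diff ξ, bf_injOn hξ hξ0, by simp [bf], ?_⟩
  rw [← tc_one, tc_bf]
  unfold ca bb aj
  simp
  ring

end Pool.Agent.MSC
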