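import Pool.Agent.MSC.BzB
import Pool.Agent.MSC.BzC
import Pool.Agent.MSC.BzD

/-!
MP_1ee37d_an: numerical sequences and auxiliary series.
-/

set_option autoImplicit false

namespace Pool.Agent.MSC

open Complex Metric Set Filter Topology Pool.Agent.StarN

/-- the real version of `bb` -/
noncomputable def br (n : ℕ) : ℝ := ∑ j ∈ Finset.range n, 1 / (2 * (j : ℝ) + 1)

lemma bb_eq (n : ℕ) : bb n = (br n : ℂ) := by
  unfold bb br aj
  push_cast
  rfl

/-- the real version of `hh` -/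
noncomputable def hr : ℕ → ℝ
  | 0 => 0
  | 1 => 0
  | (n + 2) => hr (n + 1) + 1 / (n + 2)

lemma hh_eq : ∀ n, hh n = (hr n : ℂ)
  | 0 => by simp [hh, hr]
  | 1 => by simp [hh, hr]
  | (n + 2) => by
    have h1 := hh_eq (n + 1)
    have e1 : hh (n + 2) = hh (n + 1) + 1 / (n + 2) := rfl
    have e2 : hr (n + 2) = hr (n + 1) + 1 / (n + 2) := rfl
    rw [e1, e2, h1]
    push_cast
    ring

lemma br_nonneg (n : ℕ) : 0 ≤ br n := Finset.sum_nonneg fun j _ => by positivity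

lemma br_succ (n : ℕ) : br (n + 1) = br n + 1 / (2 * (n : ℝ) + 1) := by
  unfold br
  rw [Finset.sum_range_succ]

lemma br_le_sqrt : ∀ n : ℕ, br n ≤ Real.sqrt n
  | 0 => by simp [br]
  | (n + 1) => by
    have h1 := br_le_sqrt n
    rw [br_succ]
    have hn : (0 : ℝ) ≤ n := Nat.cast_nonneg n
    have s1 := Real.sq_sqrt hn
    have s2 := Real.sq_sqrt (show (0 : ℝ) ≤ n + 1 by positivity)
    have p1 := Real.sqrt_nonneg (n : ℝ)
    have p2 : 0 < Real.sqrt ((n : ℝ) + 1) := Real.sqrt_pos.2 (by positivity)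
    push_cast
    set a := Real.sqrt (n : ℝ) with ha
    set b := Real.sqrt ((n : ℝ) + 1) with hb
    have h2 : (b - a) * (b + a) = 1 := by nlinarith
    have h3 : b + a ≤ 2 * (n : ℝ) + 1 := by
      have hb1 : 1 ≤ b := by
        rw [hb]
        exact Real.one_le_sqrt.2 (by linarith)
      have hb2 : b ≤ n + 1 := by nlinarith
      have ha2 : a ≤ n := by
        rcases Nat.eq_zero_or_pos n with h0 | h0
        · rw [ha, h0]; simp
        · have h0' : (1 : ℝ) ≤ n := by exact_mod_cast h0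
          have ha1 : 1 ≤ a := by
            rw [ha]
            exact Real.one_le_sqrt.2 h0'
          nlinarith
      linarith
    have h4 : 0 < b + a := by linarith
    have h5 : 1 / (2 * (n : ℝ) + 1) ≤ b - a := by
      rw [div_le_iff₀ (by positivity)]
      have h6 : 0 ≤ b - a := by
        by_contra hh
        push Not at hh
        nlinarith
      nlinarith
    linarith

/-- `d_n = b_n - h_n / 2` -/
noncomputable def dr (n : ℕ) : ℝ := br n - hr n / 2

lemma dr_one : dr 1 = 1 := by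
  unfold dr
  have : hr 1 = 0 := rfl
  rw [this, br_succ]
  simp [br]

lemma dr_succ (n : ℕ) : dr (n + 2) = dr (n + 1) + 1 / ((2 * (n : ℝ) + 3) * (2 * (n : ℝ) + 4)) := by
  unfold dr
  have e2 : hr (n + 2) = hr (n + 1) + 1 / (n + 2) := rfl
  rw [e2, br_succ (n + 1)]
  push_cast
  have h1 : (n : ℝ) + 2 ≠ 0 := by positivity
  have h2 : 2 * ((n : ℝ) + 1) + 1 ≠ 0 := by positivity
  have h3 : 2 * (n : ℝ) + 3 ≠ 0 := by positivity
  have h4 : 2 * (n : ℝ) + 4 ≠ 0 := by positivity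
  field_simp
  ring

lemma dr_mono : Monotone fun n : ℕ => dr (n + 1) := by
  refine monotone_nat_of_le_succ fun n => ?_
  rw [dr_succ]
  have : 0 ≤ 1 / ((2 * (n : ℝ) + 3) * (2 * (n : ℝ) + 4)) := by positivity
  linarith

lemma dr_anti : Antitone fun n : ℕ => dr (n + 1) + 1 / (4 * ((n : ℝ) + 1)) := by
  refine antitone_nat_of_succ_le fun n => ?_
  rw [dr_succ]
  have h1 : 1 / ((2 * (n : ℝ) + 3) * (2 * (n : ℝ) + 4)) ≤
      1 / (4 * ((n : ℝ) + 1)) - 1 / (4 * ((n : ℝ) + 1 + 1)) := by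
    have e : 1 / (4 * ((n : ℝ) + 1)) - 1 / (4 * ((n : ℝ) + 1 + 1)) =
        1 / (4 * ((n : ℝ) + 1) * ((n : ℝ) + 1 + 1)) := by
      field_simp
      ring
    rw [e]
    apply one_div_le_one_div_of_le (by positivity)
    have : (0 : ℝ) ≤ n := Nat.cast_nonneg n
    nlinarith
  push_cast
  linarith

/-- the limit -/
noncomputable def dL : ℝ := ⨆ n : ℕ, dr (n + 1)

lemma dr_upper (m n : ℕ) : dr (m + 1) ≤ dr (n + 1) + 1 / (4 * ((n : ℝ) + 1)) := by
  rcases le_total m n with h | h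
  · have h1 := dr_mono h
    simp only at h1
    have : 0 ≤ 1 / (4 * ((n : ℝ) + 1)) := by positivity
    linarith
  · have h1 := dr_anti h
    simp only at h1
    have : 0 ≤ 1 / (4 * ((m : ℝ) + 1)) := by positivity
    linarith

lemma dr_bdd : BddAbove (Set.range fun n : ℕ => dr (n + 1)) := by
  refine ⟨dr (0 + 1) + 1 / (4 * (((0 : ℕ) : ℝ) + 1)), ?_⟩
  rintro x ⟨m, rfl⟩
  exact dr_upper m 0

lemma dL_ge (n : ℕ) : dr (n + 1) ≤ dL := le_ciSup dr_bdd n

lemma dL_le (n : ℕ) : dL ≤ dr (n + 1) + 1 / (4 * ((n : ℝ) + 1)) := ciSup_le fun m => dr_upper m n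

lemma dL_abs : |dL| ≤ 2 := by
  have h1 := dL_ge 0
  have h2 := dL_le 0
  rw [zero_add, dr_one] at h1 h2
  rw [abs_le]
  norm_num at h2
  constructor <;> linarith

/-- general summation lemma -/
lemma exists_hasSum {c : ℕ → ℂ} {u : ℕ → ℝ} (hu : Summable u) (hc : ∀ n, ‖c n‖ ≤ u n) {z : ℂ}
    (hz : z ∈ ball (0 : ℂ) 1) :
    ∃ S : ℂ, ‖S‖ ≤ ∑' n, u n ∧ HasSum (fun n => c n * z ^ n) S := by
  have hz1 := mem_ball_zero_iff.mp hz
  have hb : ∀ n, ‖c n * z ^ n‖ ≤ u n := by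
    intro n
    rw [norm_mul, norm_pow]
    have h1 : ‖z‖ ^ n ≤ 1 := pow_le_one₀ (norm_nonneg z) hz1.le
    have h2 := norm_nonneg (c n)
    calc ‖c n‖ * ‖z‖ ^ n ≤ ‖c n‖ * 1 := by gcongr
      _ ≤ u n := by rw [mul_one]; exact hc n
  have hs : Summable fun n => ‖c n * z ^ n‖ := Summable.of_nonneg_of_le (fun _ => norm_nonneg _) hb hu
  exact ⟨∑' n, c n * z ^ n, tsum_of_norm_bounded hu.hasSum hb, hs.of_norm.hasSum⟩

/-- the absolute constant of the cubic decay -/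
lemma exists_Cd : ∃ C : ℝ, 1 ≤ C ∧ ∀ lam : ℕ → ℂ, IsMult lam → ∀ n : ℕ, 1 ≤ n →
    ‖lam n‖ ≤ C / (n : ℝ) ^ 3 := by
  obtain ⟨C, hC⟩ := cubic_decay
  refine ⟨max C 1, le_max_right _ _, fun lam h n hn => (hC lam h n hn).trans ?_⟩
  have hn0 : (0 : ℝ) < n := by exact_mod_cast hn
  gcongr
  exact le_max_left _ _

end Pool.Agent.MSC
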