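import Pool.Agent.MSC.BzE

/-!
MP_1ee37d_an: for a multiplier from `S` into `C` the series `∑ n ^ 3 lam_n z ^ n` is bounded by an
absolute constant.
-/

set_option autoImplicit false

namespace Pool.Agent.MSC

open Complex Metric Set Filter Topology Pool.Agent.StarN

variable {lam : ℕ → ℂ}

/-- summable majorant -/
noncomputable def um (n : ℕ) : ℝ := 1 / (n : ℝ) ^ ((3 : ℝ) / 2)

lemma um_summable : Summable um := Real.summable_one_div_nat_rpow.2 (by norm_num)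

lemma um_nonneg (n : ℕ) : 0 ≤ um n := by unfold um; positivity

lemma um_eq {n : ℕ} (hn : 1 ≤ n) : Real.sqrt n / (n : ℝ) ^ 2 = um n := by
  have hn0 : (0 : ℝ) < n := by exact_mod_cast hn
  unfold um
  rw [Real.sqrt_eq_rpow]
  rw [div_eq_div_iff (by positivity) (by positivity), ← Real.rpow_add hn0, one_mul,
    ← Real.rpow_natCast]
  norm_num

lemma inv_sq_le_um {n : ℕ} (hn : 1 ≤ n) : 1 / (n : ℝ) ^ 2 ≤ um n := by
  rw [← um_eq hn]
  have hn0 : (1 : ℝ) ≤ n := by exact_mod_cast hn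
  gcongr
  exact Real.one_le_sqrt.2 hn0

lemma lam_zero_term (f : ℂ → ℂ) (h0 : f 0 = 0) : tc f 0 = 0 := by
  unfold tc
  simp [h0]

/-- the series with coefficients `n ^ 2 lam_n` -/
lemma IsMult.serA (h : IsMult lam) {z : ℂ} (hz : z ∈ ball (0 : ℂ) 1) :
    ∃ A : ℂ, ‖A‖ ≤ C1 ∧ HasSum (fun n : ℕ => (n : ℂ) ^ 2 * lam n * z ^ n) A := by
  have hr2 : Rad (b2 lam) := (h.rad.mul_nat).mul_nat
  refine ⟨Gs (b2 lam) 1 z, h.bdd hz, ?_⟩
  refine (hr2.hasSum_Gs (μ := 1) (by simp) (mem_ball_zero_iff.mp hz)).congr_fun fun n => ?_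
  rcases n with _ | n
  · simp [b2]
  · rw [q_one, b2, b1]
    ring

variable {Cd : ℝ}

/-- the series with coefficients `n lam_n b_n` -/
lemma serZ (hCd : ∀ n : ℕ, 1 ≤ n → ‖lam n‖ ≤ Cd / (n : ℝ) ^ 3) (h0 : 0 ≤ Cd) {z : ℂ}
    (hz : z ∈ ball (0 : ℂ) 1) :
    ∃ S : ℂ, ‖S‖ ≤ Cd * ∑' n, um n ∧ HasSum (fun n : ℕ => (n : ℂ) * lam n * bb n * z ^ n) S := by
  rw [← tsum_mul_left]
  refine exists_hasSum (um_summable.mul_left Cd) (fun n => ?_) hz
  rcases Nat.eq_zero_or_pos n with hn | hn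
  · subst hn
    simp only [Nat.cast_zero, zero_mul, norm_zero]
    exact mul_nonneg h0 (um_nonneg 0)
  · rw [bb_eq, norm_mul, norm_mul, Complex.norm_natCast, Complex.norm_real, Real.norm_eq_abs,
      abs_of_nonneg (br_nonneg n), ← um_eq hn]
    have hn0 : (0 : ℝ) < n := by exact_mod_cast hn
    calc (n : ℝ) * ‖lam n‖ * br n ≤ (n : ℝ) * (Cd / (n : ℝ) ^ 3) * Real.sqrt n := by
          gcongr
          · exact br_nonneg n
          · exact hCd n hn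
          · exact br_le_sqrt n
      _ = Cd * (Real.sqrt n / (n : ℝ) ^ 2) := by
          field_simp

/-- the series with coefficients `lam_n b_n` -/
lemma serW (hCd : ∀ n : ℕ, 1 ≤ n → ‖lam n‖ ≤ Cd / (n : ℝ) ^ 3) (h0 : 0 ≤ Cd) {z : ℂ}
    (hz : z ∈ ball (0 : ℂ) 1) :
    ∃ S : ℂ, ‖S‖ ≤ Cd * ∑' n, um n ∧ HasSum (fun n : ℕ => lam n * bb n * z ^ n) S := by
  rw [← tsum_mul_left]
  refine exists_hasSum (um_summable.mul_left Cd) (fun n => ?_) hz
  rcases Nat.eq_zero_or_pos n with hn | hn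
  · subst hn
    have : bb 0 = 0 := by simp [bb]
    rw [this, mul_zero, norm_zero]
    exact mul_nonneg h0 (um_nonneg 0)
  · rw [bb_eq, norm_mul, Complex.norm_real, Real.norm_eq_abs,
      abs_of_nonneg (br_nonneg n), ← um_eq hn]
    have hn0 : (0 : ℝ) < n := by exact_mod_cast hn
    have hn1 : (1 : ℝ) ≤ n := by exact_mod_cast hn
    calc ‖lam n‖ * br n ≤ (Cd / (n : ℝ) ^ 3) * Real.sqrt n := by
          gcongr
          · exact br_nonneg n
          · exact hCd n hn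
          · exact br_le_sqrt n
      _ ≤ (Cd / (n : ℝ) ^ 2) * Real.sqrt n := by
          gcongr
          · norm_num
      _ = Cd * (Real.sqrt n / (n : ℝ) ^ 2) := by
          ring

/-- the series with coefficients `n ^ 2 lam_n (d_n - d_∞)` -/
lemma serE (hCd : ∀ n : ℕ, 1 ≤ n → ‖lam n‖ ≤ Cd / (n : ℝ) ^ 3) (h0 : 0 ≤ Cd) {z : ℂ}
    (hz : z ∈ ball (0 : ℂ) 1) :
    ∃ S : ℂ, ‖S‖ ≤ Cd * ∑' n, um n ∧
      HasSum (fun n : ℕ => (n : ℂ) ^ 2 * lam n * ((dr n - dL : ℝ) : ℂ) * z ^ n) S := by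
  rw [← tsum_mul_left]
  refine exists_hasSum (um_summable.mul_left Cd) (fun n => ?_) hz
  rcases Nat.eq_zero_or_pos n with hn | hn
  · subst hn
    simp only [Nat.cast_zero, ne_eq, OfNat.ofNat_ne_zero, not_false_eq_true, zero_pow, zero_mul,
      norm_zero]
    exact mul_nonneg h0 (um_nonneg 0)
  · rw [norm_mul, norm_mul, norm_pow, Complex.norm_natCast, Complex.norm_real, Real.norm_eq_abs]
    obtain ⟨m, rfl⟩ : ∃ m, n = m + 1 := ⟨n - 1, by omega⟩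
    have h1 := dL_ge m
    have h2 := dL_le m
    have h3 : |dr (m + 1) - dL| ≤ 1 / ((m + 1 : ℕ) : ℝ) := by
      rw [abs_le]
      have h4 : 1 / (4 * ((m : ℝ) + 1)) ≤ 1 / ((m + 1 : ℕ) : ℝ) := by
        apply one_div_le_one_div_of_le (by positivity)
        push_cast
        have : (0 : ℝ) ≤ m := Nat.cast_nonneg m
        linarith
      have h5 : 0 ≤ 1 / ((m + 1 : ℕ) : ℝ) := by positivity
      constructor <;> linarith
    have h6 := inv_sq_le_um hn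
    set N : ℝ := ((m + 1 : ℕ) : ℝ) with hN
    have hN0 : 0 < N := by rw [hN]; positivity
    calc N ^ 2 * ‖lam (m + 1)‖ * |dr (m + 1) - dL| ≤ N ^ 2 * (Cd / N ^ 3) * (1 / N) := by
          gcongr
          exact hCd (m + 1) hn
      _ = Cd * (1 / N ^ 2) := by
          field_simp
      _ ≤ Cd * um (m + 1) := by gcongr

/-- the series with coefficients `n ^ 2 lam_n b_n` -/
lemma IsMult.serY (h : IsMult lam) (hCd : ∀ n : ℕ, 1 ≤ n → ‖lam n‖ ≤ Cd / (n : ℝ) ^ 3)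
    (h0 : 0 ≤ Cd) {z : ℂ} (hz : z ∈ ball (0 : ℂ) 1) :
    ∃ S : ℂ, ‖S‖ ≤ 29 * C1 + Cd * ∑' n, um n ∧
      HasSum (fun n : ℕ => (n : ℂ) ^ 2 * lam n * bb n * z ^ n) S := by
  obtain ⟨D, hD1, hD2⟩ := h.bddD hz
  obtain ⟨A, hA1, hA2⟩ := h.serA hz
  obtain ⟨E, hE1, hE2⟩ := serE hCd h0 hz
  refine ⟨1 / 2 * D + (dL : ℂ) * A + E, ?_, ?_⟩
  · have h1 : ‖1 / 2 * D + (dL : ℂ) * A + E‖ ≤ ‖1 / 2 * D‖ + ‖(dL : ℂ) * A‖ + ‖E‖ :=
      norm_add₃_le
    have h2 : ‖1 / 2 * D‖ = 1 / 2 * ‖D‖ := by rw [norm_mul]; norm_num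
    have h3 : ‖(dL : ℂ) * A‖ = |dL| * ‖A‖ := by
      rw [norm_mul, Complex.norm_real, Real.norm_eq_abs]
    have h4 : |dL| * ‖A‖ ≤ 2 * C1 :=
      mul_le_mul dL_abs hA1 (norm_nonneg _) (by norm_num)
    rw [h2, h3] at h1
    linarith
  · have h5 := ((hD2.mul_left (1 / 2)).add (hA2.mul_left (dL : ℂ))).add hE2
    refine h5.congr_fun fun n => ?_
    rw [bb_eq, hh_eq]
    have e : (br n : ℂ) = 1 / 2 * (hr n : ℂ) + (dL : ℂ) + ((dr n - dL : ℝ) : ℂ) := by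
      unfold dr
      push_cast
      ring
    rw [e]
    ring

/-- the Euler derivatives of the image of `f_ξ` -/
lemma IsMult.famB (h : IsMult lam) {ξ : ℂ} (hξ : ‖ξ‖ ^ 2 ≤ ξ.re) (hξ0 : ξ ≠ 0) :
    ∃ g ∈ ClassC, ∀ z ∈ ball (0 : ℂ) 1,
      HasSum (fun n : ℕ => (n : ℂ) * (lam n * ca ξ n) * z ^ n) (z * deriv g z) ∧
      HasSum (fun n : ℕ => (n : ℂ) ^ 2 * (lam n * ca ξ n) * z ^ n)
        (z * (deriv g z + z * deriv (deriv g) z)) := by
  obtain ⟨g, hgC, hg⟩ := h (bf ξ) (bf_mem hξ hξ0)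
  refine ⟨g, hgC, ?_⟩
  have hd := hgC.1.1
  have hd2 : DifferentiableOn ℂ (deriv g) (ball 0 1) := hd.deriv isOpen_ball
  have ht : ∀ n, tc g n = lam n * ca ξ n := by
    intro n
    refine tc_of_hasSum (a := fun n => lam n * ca ξ n) (fun z hz => ?_) n
    have := hg z hz
    simpa only [tc_bf] using this
  have e1 : ∀ z ∈ ball (0 : ℂ) 1,
      HasSum (fun n : ℕ => (n : ℂ) * (lam n * ca ξ n) * z ^ n) (z * deriv g z) := by
    intro z hz
    refine (hasSum_euler hd hz).congr_fun fun n => ?_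
    rw [ht]
  refine fun z hz => ⟨e1 z hz, ?_⟩
  have hF : DifferentiableOn ℂ (fun z => z * deriv g z) (ball 0 1) := differentiableOn_id.mul hd2
  have h1 := hasSum_euler hF hz
  have ht2 : ∀ n, tc (fun z => z * deriv g z) n = (n : ℂ) * (lam n * ca ξ n) := by
    intro n
    exact tc_of_hasSum (a := fun n : ℕ => (n : ℂ) * (lam n * ca ξ n)) (fun z hz => e1 z hz) n
  have e2 : deriv (fun z => z * deriv g z) z = deriv g z + z * deriv (deriv g) z := by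
    have h3 : HasDerivAt (deriv g) (deriv (deriv g) z) z :=
      (hd2.differentiableAt (isOpen_ball.mem_nhds hz)).hasDerivAt
    have h4 := (hasDerivAt_id z).mul h3
    have h5 := h4.deriv
    simp only [id, one_mul] at h5
    exact h5
  rw [← e2]
  refine h1.congr_fun fun n => ?_
  rw [ht2]
  ring

lemma three_dirs (w : ℂ) : ∃ u : ℂ, ‖u‖ = 1 ∧ 1 / 2 ≤ u.re ∧ (u ^ 2 * w).re ≤ -(‖w‖ / 2) := by
  have hs : Real.sqrt 3 ^ 2 = 3 := Real.sq_sqrt (by norm_num)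
  have hs0 : 0 < Real.sqrt 3 := Real.sqrt_pos.2 (by norm_num)
  have hw : ‖w‖ ^ 2 = w.re ^ 2 + w.im ^ 2 := by
    rw [← Complex.normSq_eq_norm_sq, Complex.normSq_apply]
    ring
  have hw0 := norm_nonneg w
  have hr1 : |w.re| ≤ ‖w‖ := Complex.abs_re_le_norm w
  rw [abs_le] at hr1
  by_contra hcon
  push Not at hcon
  have h1 := hcon 1 (by simp) (by norm_num)
  have hn : ∀ s : ℝ, s ^ 2 = 3 → ‖((1 / 2 : ℝ) : ℂ) + ((s / 2 : ℝ) : ℂ) * Complex.I‖ = 1 := by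
    intro s hs
    have h2 : ‖((1 / 2 : ℝ) : ℂ) + ((s / 2 : ℝ) : ℂ) * Complex.I‖ ^ 2 = 1 := by
      rw [← Complex.normSq_eq_norm_sq, Complex.normSq_apply]
      simp
      nlinarith
    have h3 := norm_nonneg (((1 / 2 : ℝ) : ℂ) + ((s / 2 : ℝ) : ℂ) * Complex.I)
    nlinarith
  have hre : ∀ s : ℝ, s ^ 2 = 3 → ((((1 / 2 : ℝ) : ℂ) + ((s / 2 : ℝ) : ℂ) * Complex.I) ^ 2 * w).re =
      -(w.re / 2) - s / 2 * w.im := by
    intro s hs
    have e : (((1 / 2 : ℝ) : ℂ) + ((s / 2 : ℝ) : ℂ) * Complex.I) ^ 2 =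
        ((-(1 / 2) : ℝ) : ℂ) + ((s / 2 : ℝ) : ℂ) * Complex.I := by
      apply Complex.ext
      · simp [pow_two]
        nlinarith
      · simp [pow_two]
        ring
    rw [e, Complex.mul_re]
    simp
    ring
  have h2 := hcon _ (hn (Real.sqrt 3) hs) (by simp)
  have h3 := hcon _ (hn (-Real.sqrt 3) (by rw [neg_sq]; exact hs)) (by simp)
  rw [hre _ hs] at h2
  rw [hre _ (by rw [neg_sq]; exact hs)] at h3
  rw [one_pow, one_mul] at h1
  have h4 : w.re < ‖w‖ := by linarith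
  have h5 : Real.sqrt 3 * w.im < ‖w‖ - w.re := by linarith
  have h6 : -(Real.sqrt 3 * w.im) < ‖w‖ - w.re := by linarith
  have h7 : (Real.sqrt 3 * w.im) ^ 2 < (‖w‖ - w.re) ^ 2 := by
    apply sq_lt_sq'
    · linarith
    · exact h5
  rw [mul_pow, hs] at h7
  have h8 : 0 < (‖w‖ - w.re) * (‖w‖ - w.re - 3 * (‖w‖ + w.re)) := by nlinarith
  have h9 := (pos_iff_pos_of_mul_pos h8).1 (by linarith)
  linarith

end Pool.Agent.MSC
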