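import Pool.Agent.MSC.BzF

/-!
MP_1ee37d_an: for a multiplier from `S` into `C` the series `∑ n ^ 3 lam_n z ^ n` is bounded by an
absolute constant.
-/

set_option autoImplicit false

namespace Pool.Agent.MSC

open Complex Metric Set Filter Topology Pool.Agent.StarN

variable {lam : ℕ → ℂ}

/-- the main inequality for one parameter -/
lemma main_ineq {X W Q R : ℂ} {ρ k K : ℝ} {u : ℂ} (hu : ‖u‖ = 1)
    (hQ : Q ≠ 0) (hdir : (u ^ 2 * (X * (starRingEnd ℂ) W)).re ≤ -(‖X * (starRingEnd ℂ) W‖ / 2))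
    (hR : ‖R‖ ≤ K) (hQW : ‖Q - W‖ ≤ ρ * k)
    (hre : 0 ≤ ((((ρ : ℂ) * u) ^ 2 * X + R) / Q).re) :
    ρ ^ 2 * (‖X‖ * ‖W‖ / 2) ≤ K * ‖Q‖ + ρ ^ 2 * (‖X‖ * (ρ * k)) := by
  have hQ2 : 0 < ‖Q‖ ^ 2 := by
    have := norm_pos_iff.2 hQ
    positivity
  have h1 : 0 ≤ ((((ρ : ℂ) * u) ^ 2 * X + R) * (starRingEnd ℂ) Q).re := by
    have e : (((ρ : ℂ) * u) ^ 2 * X + R) * (starRingEnd ℂ) Q =
        ((‖Q‖ ^ 2 : ℝ) : ℂ) * ((((ρ : ℂ) * u) ^ 2 * X + R) / Q) := by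
      have h7 : Q * (starRingEnd ℂ) Q = ((‖Q‖ ^ 2 : ℝ) : ℂ) := by
        rw [Complex.mul_conj, Complex.normSq_eq_norm_sq]
      rw [← h7]
      field_simp
    rw [e, Complex.re_ofReal_mul]
    positivity
  have e2 : (((ρ : ℂ) * u) ^ 2 * X + R) * (starRingEnd ℂ) Q =
      ((ρ ^ 2 : ℝ) : ℂ) * (u ^ 2 * (X * (starRingEnd ℂ) W)) +
        ((ρ ^ 2 : ℝ) : ℂ) * (u ^ 2 * X * (starRingEnd ℂ) (Q - W)) + R * (starRingEnd ℂ) Q := by
    rw [map_sub]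
    push_cast
    ring
  rw [e2, Complex.add_re, Complex.add_re, Complex.re_ofReal_mul, Complex.re_ofReal_mul] at h1
  have h2 : (u ^ 2 * X * (starRingEnd ℂ) (Q - W)).re ≤ ‖X‖ * (ρ * k) := by
    refine (Complex.re_le_norm _).trans ?_
    rw [norm_mul, norm_mul, norm_pow, hu, one_pow, one_mul, RCLike.norm_conj]
    gcongr
  have h3 : (R * (starRingEnd ℂ) Q).re ≤ K * ‖Q‖ := by
    refine (Complex.re_le_norm _).trans ?_
    rw [norm_mul, RCLike.norm_conj]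
    gcongr
  rw [norm_mul, RCLike.norm_conj] at hdir
  have hρ2 : 0 ≤ ρ ^ 2 := by positivity
  have h4 := mul_le_mul_of_nonneg_left hdir hρ2
  have h5 := mul_le_mul_of_nonneg_left h2 hρ2
  linarith

/-- the constants -/
noncomputable def kB (Cd : ℝ) : ℝ := Cd * ∑' n, um n

noncomputable def kK (Cd : ℝ) : ℝ := 1 + C1 + 7 * kB Cd

noncomputable def kR (Cd : ℝ) : ℝ := 4 * (29 * C1 + kB Cd) + 4 * kB Cd

noncomputable def kC (Cd : ℝ) : ℝ := 8 * kR Cd * (64 * kK Cd) ^ 2 + Cd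

lemma kB_nonneg {Cd : ℝ} (h : 0 ≤ Cd) : 0 ≤ kB Cd :=
  mul_nonneg h (tsum_nonneg um_nonneg)

lemma C1_nonneg : 0 ≤ C1 := by unfold C1; positivity

/-- the outer annulus -/
lemma IsMult.third_outer (h : IsMult lam) {Cd : ℝ} (h0 : 0 ≤ Cd)
    (hCd : ∀ n : ℕ, 1 ≤ n → ‖lam n‖ ≤ Cd / (n : ℝ) ^ 3) {z : ℂ} (hz : z ∈ ball (0 : ℂ) 1)
    (hz2 : 1 / 2 ≤ ‖z‖) {X : ℂ} (hX : HasSum (fun n : ℕ => (n : ℂ) ^ 3 * lam n * z ^ n) X) :
    ‖X‖ ≤ 8 * kR Cd * (64 * kK Cd) ^ 2 := by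
  obtain ⟨A, hA1, hA2⟩ := h.serA hz
  obtain ⟨Y, hY1, hY2⟩ := h.serY hCd h0 hz
  obtain ⟨Z, hZ1, hZ2⟩ := serZ hCd h0 hz
  obtain ⟨W, hW1, hW2⟩ := serW hCd h0 hz
  have hB := kB_nonneg h0
  have hC := C1_nonneg
  change ‖Z‖ ≤ kB Cd at hZ1
  change ‖W‖ ≤ kB Cd at hW1
  change ‖Y‖ ≤ 29 * C1 + kB Cd at hY1
  have hK1 : 1 ≤ kK Cd := by unfold kK; linarith
  have hR0 : 0 ≤ kR Cd := by unfold kR; linarith
  set K := kK Cd with hKdef
  set ρ : ℝ := 1 / (64 * K) with hρ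
  have hρ0 : 0 < ρ := by rw [hρ]; positivity
  have hρK : ρ * K = 1 / 64 := by rw [hρ]; field_simp
  have hρ1 : ρ ≤ 1 / 64 := by nlinarith
  obtain ⟨u, hu1, hu2, hu3⟩ := three_dirs (X * (starRingEnd ℂ) W)
  set ξ : ℂ := (ρ : ℂ) * u with hξdef
  have hξn : ‖ξ‖ = ρ := by
    rw [hξdef, norm_mul, hu1, mul_one, Complex.norm_real, Real.norm_eq_abs, abs_of_pos hρ0]
  have hξ : ‖ξ‖ ^ 2 ≤ ξ.re := by
    rw [hξn, hξdef, Complex.re_ofReal_mul]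
    nlinarith
  have hξ0 : ξ ≠ 0 := by
    rw [← norm_pos_iff, hξn]
    exact hρ0
  obtain ⟨g, hg, hgz⟩ := h.famB hξ hξ0
  obtain ⟨hg1, hg2⟩ := hgz z hz
  have hzne : z ≠ 0 := by
    rw [← norm_pos_iff]
    linarith
  have hdne : deriv g z ≠ 0 := deriv_ne hg.1.1 hg.1.2.1 hz
  have hQ : z * deriv g z = ξ ^ 2 * A + 2 * ξ * (1 - ξ) * Z + (1 - ξ) ^ 2 * W := by
    have h5 := ((hA2.mul_left (ξ ^ 2)).add (hZ2.mul_left (2 * ξ * (1 - ξ)))).add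
      (hW2.mul_left ((1 - ξ) ^ 2))
    refine hg1.unique (h5.congr_fun fun n => ?_)
    rcases Nat.eq_zero_or_pos n with hn | hn
    · subst hn
      simp [ca, bb]
    · have hn0 : (n : ℂ) ≠ 0 := by exact_mod_cast (by omega : n ≠ 0)
      unfold ca
      field_simp
  have hN : z * (deriv g z + z * deriv (deriv g) z) =
      ξ ^ 2 * X + (2 * ξ * (1 - ξ) * Y + (1 - ξ) ^ 2 * Z) := by
    have h5 := (hX.mul_left (ξ ^ 2)).add ((hY2.mul_left (2 * ξ * (1 - ξ))).add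
      (hZ2.mul_left ((1 - ξ) ^ 2)))
    refine hg2.unique (h5.congr_fun fun n => ?_)
    rcases Nat.eq_zero_or_pos n with hn | hn
    · subst hn
      simp
    · have hn0 : (n : ℂ) ≠ 0 := by exact_mod_cast (by omega : n ≠ 0)
      unfold ca
      field_simp
      ring
  have hQ1 : 1 / 8 ≤ ‖z * deriv g z‖ := by
    rw [norm_mul]
    have := deriv_lower hg hz
    nlinarith [norm_nonneg z]
  have h1ξ : ‖1 - ξ‖ ≤ 2 := by
    have := norm_sub_le (1 : ℂ) ξ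
    rw [norm_one, hξn] at this
    linarith
  have hQW : ‖z * deriv g z - W‖ ≤ ρ * K := by
    rw [hQ]
    have e : ξ ^ 2 * A + 2 * ξ * (1 - ξ) * Z + (1 - ξ) ^ 2 * W - W =
        ξ * (ξ * A + 2 * (1 - ξ) * Z + (ξ - 2) * W) := by ring
    rw [e, norm_mul, hξn]
    have h6 : ‖ξ * A + 2 * (1 - ξ) * Z + (ξ - 2) * W‖ ≤ K := by
      have h7 : ‖ξ * A + 2 * (1 - ξ) * Z + (ξ - 2) * W‖ ≤
          ‖ξ * A‖ + ‖2 * (1 - ξ) * Z‖ + ‖(ξ - 2) * W‖ := norm_add₃_le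
      have h8 : ‖ξ * A‖ ≤ C1 := by
        rw [norm_mul, hξn]
        nlinarith [norm_nonneg A]
      have h9 : ‖2 * (1 - ξ) * Z‖ ≤ 4 * kB Cd := by
        rw [norm_mul, norm_mul]
        have : ‖(2 : ℂ)‖ = 2 := by norm_num
        rw [this]
        have := mul_le_mul h1ξ hZ1 (norm_nonneg _) (by norm_num)
        linarith
      have h10 : ‖(ξ - 2) * W‖ ≤ 3 * kB Cd := by
        rw [norm_mul]
        have h11 : ‖ξ - 2‖ ≤ 3 := by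
          have := norm_sub_le ξ 2
          rw [hξn] at this
          have h2n : ‖(2 : ℂ)‖ = 2 := by norm_num
          linarith
        exact mul_le_mul h11 hW1 (norm_nonneg _) (by norm_num)
      have : K = 1 + C1 + 7 * kB Cd := rfl
      linarith
    gcongr
  have hR : ‖2 * ξ * (1 - ξ) * Y + (1 - ξ) ^ 2 * Z‖ ≤ kR Cd := by
    refine (norm_add_le _ _).trans ?_
    have h8 : ‖2 * ξ * (1 - ξ) * Y‖ ≤ 4 * (29 * C1 + kB Cd) := by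
      rw [norm_mul, norm_mul, norm_mul, hξn]
      have : ‖(2 : ℂ)‖ = 2 := by norm_num
      rw [this]
      have h9 : 2 * ρ * ‖1 - ξ‖ ≤ 4 := by nlinarith [norm_nonneg (1 - ξ)]
      exact mul_le_mul h9 hY1 (norm_nonneg _) (by norm_num)
    have h10 : ‖(1 - ξ) ^ 2 * Z‖ ≤ 4 * kB Cd := by
      rw [norm_mul, norm_pow]
      have h9 : ‖1 - ξ‖ ^ 2 ≤ 4 := by nlinarith [norm_nonneg (1 - ξ)]
      exact mul_le_mul h9 hZ1 (norm_nonneg _) (by norm_num)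
    unfold kR
    linarith
  have hre : 0 ≤ ((ξ ^ 2 * X + (2 * ξ * (1 - ξ) * Y + (1 - ξ) ^ 2 * Z)) / (z * deriv g z)).re := by
    rw [← hN, mul_div_mul_left _ _ hzne, add_div, div_self hdne]
    exact re_study hg hz
  have hmain := main_ineq hu1 (mul_ne_zero hzne hdne) hu3 hR hQW hre
  have hWl : 7 / 64 ≤ ‖W‖ := by
    have h5 : ‖z * deriv g z‖ ≤ ‖z * deriv g z - W‖ + ‖W‖ := by
      have := norm_add_le (z * deriv g z - W) W
      simpa using this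
    linarith
  have hQu : ‖z * deriv g z‖ ≤ ‖W‖ * 2 := by
    have h5 : ‖z * deriv g z‖ ≤ ‖z * deriv g z - W‖ + ‖W‖ := by
      have := norm_add_le (z * deriv g z - W) W
      simpa using this
    linarith
  rw [hρK] at hmain
  have hX0 := norm_nonneg X
  have hρ2 : 0 < ρ ^ 2 := by positivity
  have h11 : ρ ^ 2 * (‖X‖ * (1 / 64)) ≤ ρ ^ 2 * (‖X‖ * (‖W‖ / 4)) :=
    mul_le_mul_of_nonneg_left (mul_le_mul_of_nonneg_left (by linarith) hX0) hρ2.le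
  have h12 : kR Cd * ‖z * deriv g z‖ ≤ kR Cd * (‖W‖ * 2) := by gcongr
  have h13 : ‖W‖ * (ρ ^ 2 * ‖X‖ / 4) ≤ ‖W‖ * (kR Cd * 2) := by
    have e1 : ‖W‖ * (ρ ^ 2 * ‖X‖ / 4) =
        ρ ^ 2 * (‖X‖ * ‖W‖ / 2) - ρ ^ 2 * (‖X‖ * (‖W‖ / 4)) := by ring
    rw [e1]
    linarith
  have h14 : ρ ^ 2 * ‖X‖ / 4 ≤ kR Cd * 2 := le_of_mul_le_mul_left h13 (by linarith)
  have h15 : ‖X‖ = (64 * K) ^ 2 * (ρ ^ 2 * ‖X‖) := by
    rw [hρ]
    field_simp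
  rw [h15]
  have : (64 * K) ^ 2 * (ρ ^ 2 * ‖X‖) ≤ (64 * K) ^ 2 * (8 * kR Cd) :=
    mul_le_mul_of_nonneg_left (by linarith) (by positivity)
  linarith

/-- the inner disc -/
lemma third_inner {Cd : ℝ} (h0 : 0 ≤ Cd)
    (hCd : ∀ n : ℕ, 1 ≤ n → ‖lam n‖ ≤ Cd / (n : ℝ) ^ 3) {z : ℂ}
    (hz2 : ‖z‖ ≤ 1 / 2) {X : ℂ} (hX : HasSum (fun n : ℕ => (n : ℂ) ^ 3 * lam n * z ^ n) X) :
    ‖X‖ ≤ Cd := by
  have hb : ∀ n : ℕ, ‖((n + 1 : ℕ) : ℂ) ^ 3 * lam (n + 1) * z ^ (n + 1)‖ ≤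
      Cd * ((1 / 2) * (1 / 2) ^ n) := by
    intro n
    rw [norm_mul, norm_mul, norm_pow, norm_pow, Complex.norm_natCast]
    have h1 := hCd (n + 1) (by omega)
    have hn0 : (0 : ℝ) < ((n + 1 : ℕ) : ℝ) := by positivity
    have h2 : ((n + 1 : ℕ) : ℝ) ^ 3 * ‖lam (n + 1)‖ ≤ Cd := by
      rw [le_div_iff₀ (by positivity)] at h1
      linarith
    have h3 : ‖z‖ ^ (n + 1) ≤ (1 / 2) * (1 / 2) ^ n := by
      calc ‖z‖ ^ (n + 1) ≤ (1 / 2) ^ (n + 1) := by gcongr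
        _ = (1 / 2) * (1 / 2) ^ n := by rw [pow_succ]; ring
    exact mul_le_mul h2 h3 (by positivity) h0
  have hg : HasSum (fun n : ℕ => Cd * ((1 / 2) * ((1 : ℝ) / 2) ^ n)) (Cd * ((1 / 2) * 2)) := by
    have := hasSum_geometric_two
    exact (this.mul_left (1 / 2)).mul_left Cd
  have h4 : HasSum (fun n : ℕ => ((n + 1 : ℕ) : ℂ) ^ 3 * lam (n + 1) * z ^ (n + 1)) X := by
    have := (hasSum_nat_add_iff' 1).mpr hX
    simpa using this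
  have h5 := tsum_of_norm_bounded hg hb
  rw [h4.tsum_eq] at h5
  linarith

theorem third_bounded : ∃ C : ℝ, ∀ lam : ℕ → ℂ, IsMult lam → ∀ z : ℂ, ‖z‖ < 1 →
    ∃ X : ℂ, HasSum (fun n : ℕ => (n : ℂ) ^ 3 * lam n * z ^ n) X ∧ ‖X‖ ≤ C := by
  obtain ⟨Cd, hCd1, hCd⟩ := exists_Cd
  refine ⟨kC Cd, fun lam h z hz => ?_⟩
  have h0 : 0 ≤ Cd := by linarith
  have hzb : z ∈ ball (0 : ℂ) 1 := mem_ball_zero_iff.2 hz
  have hrad : Rad fun n : ℕ => (n : ℂ) ^ 3 * lam n := by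
    have := ((h.rad.mul_nat).mul_nat).mul_nat
    have e : (fun n : ℕ => (n : ℂ) * ((n : ℂ) * ((n : ℂ) * lam n))) =
        fun n : ℕ => (n : ℂ) ^ 3 * lam n := by
      funext n
      ring
    rw [← e]
    exact this
  have hs : Summable fun n : ℕ => (n : ℂ) ^ 3 * lam n * z ^ n := by
    refine Summable.of_norm ?_
    have := hrad ‖z‖ (norm_nonneg z) hz
    refine this.congr fun n => ?_
    rw [norm_mul _ (z ^ n), norm_pow z n]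
  refine ⟨_, hs.hasSum, ?_⟩
  have hR0 : 0 ≤ kR Cd := by
    have := kB_nonneg h0
    have := C1_nonneg
    unfold kR
    linarith
  unfold kC
  rcases le_total (1 / 2) ‖z‖ with h2 | h2
  · have := h.third_outer h0 (fun n hn => hCd lam h n hn) hzb h2 hs.hasSum
    linarith
  · have := third_inner h0 (fun n hn => hCd lam h n hn) h2 hs.hasSum
    have h3 : 0 ≤ 8 * kR Cd * (64 * kK Cd) ^ 2 := by positivity
    linarith

end Pool.Agent.MSC
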