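import Pool.Agent.MSC.Param

/-!
MP_1ee37d_an: the chain of estimates; the series with coefficients `n ^ 2 lam_n` is bounded by an
absolute constant.
-/

namespace Pool.Agent.MSC

open Complex Metric Set Filter Topology Pool.Agent.StarN

/-- Harnack's inequality for zero-free functions with argument in `(-π, π)` -/
lemma harnack_slit {w : ℂ → ℂ} (hd : DifferentiableOn ℂ w (ball 1 1))
    (hs : ∀ μ ∈ ball (1 : ℂ) 1, w μ ∈ slitPlane) {μ : ℂ} (hμ : μ ∈ ball (1 : ℂ) 1) :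
    (1 - ‖μ - 1‖) ^ 2 * ‖w μ‖ ≤ (1 + ‖μ - 1‖) ^ 2 * ‖w 1‖ ∧
      (1 - ‖μ - 1‖) ^ 2 * ‖w 1‖ ≤ (1 + ‖μ - 1‖) ^ 2 * ‖w μ‖ := by
  have hx : ‖μ - 1‖ < 1 := mem_ball_iff_norm.mp hμ
  have hx0 := norm_nonneg (μ - 1)
  have hQd : DifferentiableOn ℂ (fun x => Complex.exp (Complex.log (w x) / 2)) (ball 1 1) :=
    ((hd.clog hs).div_const 2).cexp
  have hQ2 : ∀ x ∈ ball (1 : ℂ) 1, ‖Complex.exp (Complex.log (w x) / 2)‖ ^ 2 = ‖w x‖ := by
    intro x hx
    rw [← norm_pow, ← Complex.exp_nat_mul]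
    congr 1
    rw [show ((2 : ℕ) : ℂ) * (Complex.log (w x) / 2) = Complex.log (w x) by push_cast; ring]
    exact Complex.exp_log (slitPlane_ne_zero (hs x hx))
  have hre : ∀ x ∈ ball (1 : ℂ) 1, 0 ≤ (Complex.exp (Complex.log (w x) / 2)).re := by
    intro x _
    rw [Complex.exp_re]
    refine mul_nonneg (Real.exp_pos _).le (Real.cos_nonneg_of_mem_Icc ?_)
    have h1 : (Complex.log (w x) / 2).im = (w x).arg / 2 := by
      rw [show Complex.log (w x) / 2 = Complex.log (w x) / ((2 : ℝ) : ℂ) by push_cast; rfl,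
        Complex.div_ofReal_im, Complex.log_im]
    rw [h1]
    have h2 := Complex.neg_pi_lt_arg (w x)
    have h3 := Complex.arg_le_pi (w x)
    constructor <;> linarith
  obtain ⟨h1, h2⟩ := harnack hQd hre hμ
  have hc : (1 : ℂ) ∈ ball (1 : ℂ) 1 := one_mem
  rw [← hQ2 μ hμ, ← hQ2 1 hc, ← mul_pow, ← mul_pow, ← mul_pow, ← mul_pow]
  constructor
  · exact pow_le_pow_left₀ (mul_nonneg (by linarith) (norm_nonneg _)) h1 2
  · exact pow_le_pow_left₀ (mul_nonneg (by linarith) (norm_nonneg _)) h2 2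

variable {lam : ℕ → ℂ}

lemma half_mem : (1 / 2 : ℂ) ∈ ball (1 : ℂ) 1 := by
  rw [mem_ball_iff_norm]; norm_num

lemma half_norm : ‖(1 / 2 : ℂ) - 1‖ = 1 / 2 := by norm_num

lemma three_mem : (1 + 1 / 2 : ℂ) ∈ ball (1 : ℂ) 1 := by
  rw [mem_ball_iff_norm]; norm_num

lemma three_norm : ‖(1 + 1 / 2 : ℂ) - 1‖ = 1 / 2 := by norm_num

lemma IsMult.chain (h : IsMult lam) {z : ℂ} (hz : z ∈ ball (0 : ℂ) 1) (hz0 : z ≠ 0) :
    ‖Gs (b2 lam) 1 z‖ ≤ 366 * ‖Gs (b1 lam) 1 z‖ := by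
  have hz1 := mem_ball_zero_iff.mp hz
  have hr1 : Rad (b1 lam) := h.rad.mul_nat
  have hr2 : Rad (b2 lam) := hr1.mul_nat
  have hsub : ball (1 : ℂ) 1 ⊆ ball (0 : ℂ) 2 := fun μ hμ =>
    mem_ball_zero_iff.mpr (norm_lt_two hμ)
  have hd1 : DifferentiableOn ℂ (fun μ => Gs (b1 lam) μ z) (ball 1 1) := (hr1.Gs_diff hz1).mono hsub
  have hd2 : DifferentiableOn ℂ (fun μ => Gs (b2 lam) μ z) (ball 1 1) := (hr2.Gs_diff hz1).mono hsub
  have hw : ∀ μ ∈ ball (1 : ℂ) 1, Gs (b1 lam) μ z / z ∈ slitPlane := by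
    intro μ hμ
    obtain ⟨g, hg, hgz⟩ := h.fam hμ
    rw [(hgz z hz).1, mul_div_cancel_left₀ _ hz0]
    exact deriv_slit hg hz
  have hne : ∀ μ ∈ ball (1 : ℂ) 1, Gs (b1 lam) μ z ≠ 0 := by
    intro μ hμ h0
    have := slitPlane_ne_zero (hw μ hμ)
    rw [h0, zero_div] at this
    exact this rfl
  have hΦ : ∀ μ ∈ ball (1 : ℂ) 1, 0 ≤ (Gs (b2 lam) μ z / Gs (b1 lam) μ z).re := by
    intro μ hμ
    obtain ⟨g, hg, hgz⟩ := h.fam hμ
    have h1 := slitPlane_ne_zero (deriv_slit hg hz)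
    rw [(hgz z hz).1, (hgz z hz).2, mul_div_mul_left _ _ hz0, add_div, div_self h1]
    exact re_study hg hz
  -- Harnack for H / z
  have e1 := (harnack_slit (hd1.div_const z) hw three_mem).1
  have e2 := (harnack_slit (hd1.div_const z) hw half_mem).2
  rw [three_norm] at e1
  rw [half_norm] at e2
  have hzn : 0 < ‖z‖ := norm_pos_iff.mpr hz0
  rw [norm_div, norm_div] at e1 e2
  have e3 : ‖Gs (b1 lam) (1 + 1 / 2) z‖ ≤ 9 * ‖Gs (b1 lam) 1 z‖ := by
    rw [mul_div_assoc', mul_div_assoc', div_le_div_iff_of_pos_right hzn] at e1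
    linarith
  have e4 : ‖Gs (b1 lam) 1 z‖ ≤ 9 * ‖Gs (b1 lam) (1 / 2) z‖ := by
    rw [mul_div_assoc', mul_div_assoc', div_le_div_iff_of_pos_right hzn] at e2
    linarith
  -- the shift
  have e5 := Gs_shift hr1 (μ := 1 / 2) (z := z) (by norm_num) (by norm_num) hz1
  have e6 : Gs (b2 lam) (1 / 2) z =
      (1 + 1 / 2) * Gs (b1 lam) (1 + 1 / 2) z - 1 / 2 * Gs (b1 lam) (1 / 2) z := by
    rw [e5, add_sub_cancel_right]
    rfl
  have e7 : ‖Gs (b2 lam) (1 / 2) z‖ ≤ 122 * ‖Gs (b1 lam) (1 / 2) z‖ := by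
    rw [e6]
    refine (norm_sub_le _ _).trans ?_
    rw [norm_mul, norm_mul]
    have h1 : ‖(1 + 1 / 2 : ℂ)‖ = 3 / 2 := by norm_num
    have h2 : ‖(1 / 2 : ℂ)‖ = 1 / 2 := by norm_num
    rw [h1, h2]
    linarith
  -- Harnack for N / H
  have e8 := (harnack (hd2.div hd1 hne) hΦ half_mem).2
  simp only [Pi.div_apply] at e8
  rw [half_norm, norm_div, norm_div] at e8
  have hp1 : 0 < ‖Gs (b1 lam) 1 z‖ := norm_pos_iff.mpr (hne 1 one_mem)
  have hp2 : 0 < ‖Gs (b1 lam) (1 / 2) z‖ := norm_pos_iff.mpr (hne _ half_mem)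
  have e9 : ‖Gs (b2 lam) (1 / 2) z‖ / ‖Gs (b1 lam) (1 / 2) z‖ ≤ 122 := by
    rw [div_le_iff₀ hp2]; exact e7
  have e10 : ‖Gs (b2 lam) 1 z‖ / ‖Gs (b1 lam) 1 z‖ ≤ 366 := by linarith
  rwa [div_le_iff₀ hp1] at e10

/-- a bound for the logarithmic derivative gives a bound for the function -/
lemma norm_le_exp {g : ℂ → ℂ} {B : ℝ} (hB : 0 < B) (hd : DifferentiableOn ℂ g (ball 0 1))
    (hne : ∀ z ∈ ball (0 : ℂ) 1, g z ≠ 0) (h1 : g 0 = 1)
    (hb : ∀ z ∈ ball (0 : ℂ) 1, ‖z * deriv g z‖ ≤ B * ‖g z‖) {z : ℂ} (hz : z ∈ ball (0 : ℂ) 1) :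
    ‖g z‖ ≤ Real.exp B := by
  have hdd : DifferentiableOn ℂ (deriv g) (ball 0 1) := hd.deriv isOpen_ball
  -- Schwarz
  have hψd : DifferentiableOn ℂ (fun z => deriv g z / g z) (ball 0 1) := hdd.div hd hne
  have hF : ∀ x : ℂ, ‖x‖ < 1 → ‖(x * (deriv g x / g x)) / B‖ ≤ ‖x‖ := by
    intro x hx
    refine Complex.norm_le_norm_of_mapsTo_ball (f := fun x => (x * (deriv g x / g x)) / B)
      (R := 1) ((differentiableOn_id.mul hψd).div_const _) ?_ (by simp) hx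
    intro y hy
    rw [mem_closedBall_zero_iff, norm_div, Complex.norm_real, Real.norm_eq_abs, abs_of_pos hB,
      div_le_one hB, mul_div_assoc', norm_div, div_le_iff₀ (norm_pos_iff.mpr (hne y hy))]
    exact hb y hy
  have hψ : ∀ x : ℂ, ‖x‖ < 1 → x ≠ 0 → ‖deriv g x / g x‖ ≤ B := by
    intro x hx hx0
    have h2 := hF x hx
    rw [norm_div, norm_mul, Complex.norm_real, Real.norm_eq_abs, abs_of_pos hB,
      div_le_iff₀ hB, mul_comm ‖x‖ B] at h2
    have h3 : 0 < ‖x‖ := norm_pos_iff.mpr hx0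
    rw [mul_comm ‖x‖] at h2
    exact le_of_mul_le_mul_right h2 h3
  have hψ0 : ‖deriv g 0 / g 0‖ ≤ B := by
    have hc : ContinuousAt (fun z => ‖deriv g z / g z‖) 0 :=
      ((hψd.differentiableAt (isOpen_ball.mem_nhds (mem_ball_self one_pos))).continuousAt).norm
    have h2 : Tendsto (fun z => ‖deriv g z / g z‖) (𝓝[≠] 0) (𝓝 ‖deriv g 0 / g 0‖) :=
      hc.tendsto.mono_left nhdsWithin_le_nhds
    refine le_of_tendsto h2 ?_
    have h3 : ∀ᶠ x : ℂ in 𝓝[≠] 0, ‖x‖ < 1 := by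
      refine nhdsWithin_le_nhds ?_
      filter_upwards [ball_mem_nhds (0 : ℂ) one_pos] with x hx
      exact mem_ball_zero_iff.mp hx
    filter_upwards [h3, self_mem_nhdsWithin] with x hx hx0
    exact hψ x hx hx0
  have hψ' : ∀ x ∈ ball (0 : ℂ) 1, ‖deriv g x‖ ≤ B * ‖g x‖ := by
    intro x hx
    have h2 : ‖deriv g x / g x‖ ≤ B := by
      rcases eq_or_ne x 0 with rfl | hx0
      · exact hψ0
      · exact hψ x (mem_ball_zero_iff.mp hx) hx0
    rwa [norm_div, div_le_iff₀ (norm_pos_iff.mpr (hne x hx))] at h2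
  -- Gronwall
  have hmem : ∀ t ∈ Icc (0 : ℝ) 1, (t : ℂ) * z ∈ ball (0 : ℂ) 1 := by
    intro t ht
    rw [mem_ball_zero_iff, norm_mul, Complex.norm_real, Real.norm_eq_abs, abs_of_nonneg ht.1]
    have := mem_ball_zero_iff.mp hz
    nlinarith [norm_nonneg z, ht.1, ht.2]
  have hder : ∀ t ∈ Icc (0 : ℝ) 1, HasDerivAt (fun t : ℝ => g ((t : ℂ) * z))
      (deriv g ((t : ℂ) * z) * z) t := by
    intro t ht
    have h2 : HasDerivAt g (deriv g ((t : ℂ) * z)) ((t : ℂ) * z) :=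
      (hd.differentiableAt (isOpen_ball.mem_nhds (hmem t ht))).hasDerivAt
    have h3 : HasDerivAt (fun t : ℝ => (t : ℂ) * z) z t := by
      have := (Complex.ofRealCLM.hasDerivAt (x := t)).mul_const z
      simpa using this
    exact h2.comp t h3
  have key := norm_le_gronwallBound_of_norm_deriv_right_le (f := fun t : ℝ => g ((t : ℂ) * z))
    (f' := fun t : ℝ => deriv g ((t : ℂ) * z) * z) (δ := 1) (K := B) (ε := 0) (a := 0) (b := 1)
    (fun t ht => (hder t ht).continuousAt.continuousWithinAt)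
    (fun t ht => (hder t ⟨ht.1, ht.2.le⟩).hasDerivWithinAt)
    (by simp [h1]) (fun t ht => ?_) 1 ⟨zero_le_one, le_rfl⟩
  · rw [gronwallBound_ε0] at key
    simpa using key
  · have h2 := hψ' _ (hmem t ⟨ht.1, ht.2.le⟩)
    rw [norm_mul, add_zero]
    have h3 := (mem_ball_zero_iff.mp hz).le
    have h4 := norm_nonneg (deriv g ((t : ℂ) * z))
    have h5 := norm_nonneg z
    nlinarith

/-- the bound -/
noncomputable def C1 : ℝ := 366 * Real.exp 367

lemma IsMult.bdd (h : IsMult lam) {z : ℂ} (hz : z ∈ ball (0 : ℂ) 1) :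
    ‖Gs (b2 lam) 1 z‖ ≤ C1 := by
  rcases eq_or_ne z 0 with rfl | hz0
  · obtain ⟨g, -, hgz⟩ := h.fam one_mem
    rw [(hgz 0 hz).2, zero_mul, norm_zero, C1]
    positivity
  obtain ⟨g, hg, hgz⟩ := h.fam one_mem
  have hd2 : DifferentiableOn ℂ (deriv g) (ball 0 1) := hg.1.1.deriv isOpen_ball
  have h1 : ‖deriv g z‖ ≤ Real.exp 367 := by
    refine norm_le_exp (by norm_num) hd2 (fun x hx => deriv_ne hg.1.1 hg.1.2.1 hx) hg.1.2.2.2
      (fun x hx => ?_) hz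
    rcases eq_or_ne x 0 with rfl | hx0
    · rw [zero_mul, norm_zero]; positivity
    have h2 := h.chain hx hx0
    rw [(hgz x hx).1, (hgz x hx).2, norm_mul, norm_mul] at h2
    have h3 : 0 < ‖x‖ := norm_pos_iff.mpr hx0
    have h4 : ‖deriv g x + x * deriv (deriv g) x‖ ≤ 366 * ‖deriv g x‖ := by
      refine le_of_mul_le_mul_left ?_ h3
      linarith
    have h5 : x * deriv (deriv g) x = (deriv g x + x * deriv (deriv g) x) - deriv g x := by ring
    rw [h5]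
    refine (norm_sub_le _ _).trans ?_
    linarith
  refine (h.chain hz hz0).trans ?_
  rw [(hgz z hz).1, norm_mul, C1]
  have h6 := (mem_ball_zero_iff.mp hz).le
  have h7 := norm_nonneg (deriv g z)
  have h8 := norm_nonneg z
  nlinarith

end Pool.Agent.MSC
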