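import Pool.Agent.MSC.Means

/-!
MP_1ee37d_an: bounded star-like functions (area and Clunie's method).
-/

namespace Pool.Agent.MSC

open Complex Metric Set Filter Topology Pool.Agent.StarN

/-- `A z = z h(z)` is star-like and bounded by `M`. -/
structure StarB (h : ℂ → ℂ) (M : ℝ) : Prop where
  d : DifferentiableOn ℂ h (ball 0 1)
  ne : ∀ z ∈ ball (0 : ℂ) 1, h z ≠ 0
  re : ∀ z ∈ ball (0 : ℂ) 1, 0 ≤ (1 + z * deriv h z / h z).re
  bd : ∀ z ∈ ball (0 : ℂ) 1, ‖z * h z‖ ≤ M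

namespace StarB

variable {h : ℂ → ℂ} {M : ℝ}

/-- `Φ = z A' / A` -/
noncomputable def Phi (h : ℂ → ℂ) (z : ℂ) : ℂ := 1 + z * deriv h z / h z

lemma dh (H : StarB h M) : DifferentiableOn ℂ (deriv h) (ball 0 1) := H.d.deriv isOpen_ball

lemma dPhi (H : StarB h M) : DifferentiableOn ℂ (Phi h) (ball 0 1) :=
  ((differentiableOn_id.mul H.dh).div H.d H.ne).const_add 1

lemma dA (H : StarB h M) : DifferentiableOn ℂ (fun z => z * h z) (ball 0 1) :=
  differentiableOn_id.mul H.d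

lemma euler (H : StarB h M) {z : ℂ} (hz : z ∈ ball (0 : ℂ) 1) :
    z * deriv (fun z => z * h z) z = z * h z * Phi h z := by
  have h3 : HasDerivAt h (deriv h z) z :=
    (H.d.differentiableAt (isOpen_ball.mem_nhds hz)).hasDerivAt
  have h4 := (hasDerivAt_id z).mul h3
  have h5 := h4.deriv
  simp only [id, one_mul] at h5
  have h6 : deriv (fun z => z * h z) z = h z + z * deriv h z := h5
  have h7 := H.ne z hz
  rw [h6, Phi]
  field_simp

/-- coefficients of `z A' + c A` -/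
lemma tc_comb (H : StarB h M) (c : ℂ) (n : ℕ) :
    tc (fun z => z * h z * (Phi h z + c)) n = (n + c) * tc (fun z => z * h z) n := by
  refine tc_of_hasSum (a := fun n : ℕ => ((n : ℂ) + c) * tc (fun z => z * h z) n)
    (fun z hz => ?_) n
  have h1 := (hasSum_euler H.dA hz).add ((hasSum_tc H.dA hz).mul_left c)
  rw [H.euler hz] at h1
  have e : z * h z * Phi h z + c * (z * h z) = z * h z * (Phi h z + c) := by ring
  rw [e] at h1
  refine h1.congr_fun fun m => ?_
  ring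

lemma dcomb (H : StarB h M) (c : ℂ) :
    DifferentiableOn ℂ (fun z => z * h z * (Phi h z + c)) (ball 0 1) :=
  H.dA.mul (H.dPhi.add_const c)

lemma norm_sq_diff (x : ℂ) : ‖x + 1‖ ^ 2 - ‖x + (-1)‖ ^ 2 = 4 * x.re := by
  rw [← Complex.normSq_eq_norm_sq, ← Complex.normSq_eq_norm_sq, Complex.normSq_apply,
    Complex.normSq_apply]
  simp only [Complex.add_re, Complex.add_im, Complex.one_re, Complex.one_im, Complex.neg_re,
    Complex.neg_im]
  ring

lemma tc_add_const {f : ℂ → ℂ} (hf : DifferentiableOn ℂ f (ball 0 1)) (c : ℂ) (n : ℕ) :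
    tc (fun z => f z + c) n = tc f n + if n = 0 then c else 0 := by
  refine tc_of_hasSum (a := fun n : ℕ => tc f n + if n = 0 then c else 0) (fun z hz => ?_) n
  have h2 : HasSum (fun n : ℕ => if n = 0 then c else 0) c := hasSum_ite_eq 0 c
  refine ((hasSum_tc hf hz).add h2).congr_fun fun m => ?_
  rw [add_mul]
  congr 1
  split_ifs with h
  · rw [h, pow_zero, mul_one]
  · rw [zero_mul]

/-- the area theorem for bounded star-like functions -/
lemma area (H : StarB h M) {r : ℝ} (h0 : 0 ≤ r) (h1 : r < 1) (N : ℕ) :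
    ∑ n ∈ Finset.range N, (n : ℝ) * ‖tc (fun z => z * h z) n * (r : ℂ) ^ n‖ ^ 2 ≤ M ^ 2 := by
  have t1 := dm_tendsto (H.dcomb 1) h0 h1
  have t2 := dm_tendsto (H.dcomb (-1)) h0 h1
  have t3 := dm_tendsto (H.dPhi.add_const 1) h0 h1
  have t4 := dm_tendsto (H.dPhi.add_const (-1)) h0 h1
  have s1 := summable_sq (summable_coef (H.dcomb 1) h0 h1)
  have s2 := summable_sq (summable_coef (H.dcomb (-1)) h0 h1)
  have s3 := summable_sq (summable_coef (H.dPhi.add_const 1) h0 h1)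
  have s4 := summable_sq (summable_coef (H.dPhi.add_const (-1)) h0 h1)
  have hle : ∀ K, dm (fun z => z * h z * (Phi h z + 1)) r K -
      dm (fun z => z * h z * (Phi h z + (-1))) r K ≤
      M ^ 2 * (dm (fun z => Phi h z + 1) r K - dm (fun z => Phi h z + (-1)) r K) := by
    intro K
    unfold dm
    rw [← sub_div, ← sub_div, ← mul_div_assoc, ← Finset.sum_sub_distrib, ← Finset.sum_sub_distrib,
      Finset.mul_sum]
    gcongr with l hl
    set z : ℂ := r * Complex.exp (2 * Real.pi * I / K) ^ l with hz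
    have hzm : z ∈ ball (0 : ℂ) 1 := pt_mem h0 h1 K l
    rw [norm_mul, norm_mul (z * h z), mul_pow, mul_pow, ← mul_sub, norm_sq_diff]
    have h2 := H.re z hzm
    have h3 := H.bd z hzm
    have h4 : ‖z * h z‖ ^ 2 ≤ M ^ 2 := pow_le_pow_left₀ (norm_nonneg _) h3 2
    exact mul_le_mul_of_nonneg_right h4 (mul_nonneg (by norm_num) h2)
  have hlim := le_of_tendsto_of_tendsto' (t1.sub t2) ((t3.sub t4).const_mul (M ^ 2)) hle
  rw [← s1.tsum_sub s2, ← s3.tsum_sub s4] at hlim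
  have e2 : ∑' n, (‖tc (fun z => Phi h z + 1) n * (r : ℂ) ^ n‖ ^ 2 -
      ‖tc (fun z => Phi h z + (-1)) n * (r : ℂ) ^ n‖ ^ 2) = 4 := by
    rw [tsum_eq_single 0]
    · rw [tc_add_const H.dPhi, tc_add_const H.dPhi, if_pos rfl, if_pos rfl, pow_zero, mul_one,
        mul_one, norm_sq_diff, tc_zero]
      simp [Phi]
    · intro n hn
      rw [tc_add_const H.dPhi, tc_add_const H.dPhi, if_neg hn, if_neg hn, sub_self]
  have e1 : ∀ n, ‖tc (fun z => z * h z * (Phi h z + 1)) n * (r : ℂ) ^ n‖ ^ 2 -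
      ‖tc (fun z => z * h z * (Phi h z + (-1))) n * (r : ℂ) ^ n‖ ^ 2 =
      4 * ((n : ℝ) * ‖tc (fun z => z * h z) n * (r : ℂ) ^ n‖ ^ 2) := by
    intro n
    rw [H.tc_comb, H.tc_comb, mul_assoc, mul_assoc, norm_mul, norm_mul ((n : ℂ) + -1), mul_pow,
      mul_pow, ← sub_mul, norm_sq_diff, Complex.natCast_re]
    ring
  simp only [e1] at hlim
  rw [e2] at hlim
  have s5 : Summable fun n : ℕ => 4 * ((n : ℝ) * ‖tc (fun z => z * h z) n * (r : ℂ) ^ n‖ ^ 2) := by
    have := s1.sub s2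
    simpa only [e1] using this
  have h6 := s5.sum_le_tsum (Finset.range N) (fun n _ => by positivity)
  rw [← Finset.mul_sum] at h6
  linarith

/-- Clunie's method -/
lemma clunie (H : StarB h M) {r : ℝ} (h0 : 0 ≤ r) (h1 : r < 1) (n : ℕ) :
    ((n : ℝ) - 1) ^ 2 * ‖tc (fun z => z * h z) n * (r : ℂ) ^ n‖ ^ 2 ≤ 4 * M ^ 2 := by
  set a : ℕ → ℂ := tc (fun z => z * h z) with ha
  set w : ℂ → ℂ := fun z => (Phi h z + (-1)) / (Phi h z + 1) with hw
  have hden : ∀ z ∈ ball (0 : ℂ) 1, Phi h z + 1 ≠ 0 := by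
    intro z hz h2
    have h3 := congrArg Complex.re h2
    simp only [Complex.add_re, Complex.one_re, Complex.zero_re] at h3
    have h4 : 0 ≤ (Phi h z).re := H.re z hz
    linarith
  have hwd : DifferentiableOn ℂ w (ball 0 1) :=
    (H.dPhi.add_const _).div (H.dPhi.add_const _) hden
  have hw1 : ∀ z ∈ ball (0 : ℂ) 1, ‖w z‖ ≤ 1 := by
    intro z hz
    rw [hw, norm_div, div_le_one (norm_pos_iff.mpr (hden z hz))]
    have h2 := norm_sq_diff (Phi h z)
    have h3 : 0 ≤ (Phi h z).re := H.re z hz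
    exact le_of_sq_le_sq (by linarith) (norm_nonneg _)
  have hw0 : tc w 0 = 0 := by
    rw [tc_zero, hw]
    simp [Phi]
  set P : ℂ → ℂ := fun z => ∑ k ∈ Finset.range n, (((k : ℂ) + 1) * a k) * z ^ k with hP
  have hPd : DifferentiableOn ℂ P (ball 0 1) := by
    rw [hP]
    fun_prop
  have htP : ∀ j, tc P j = if j < n then ((j : ℂ) + 1) * a j else 0 := by
    intro j
    refine tc_of_hasSum (a := fun j => if j < n then ((j : ℂ) + 1) * a j else 0)
      (fun z hz => ?_) j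
    have h2 : HasSum (fun k : ℕ => (if k < n then ((k : ℂ) + 1) * a k else 0) * z ^ k)
        (∑ k ∈ Finset.range n, (if k < n then ((k : ℂ) + 1) * a k else 0) * z ^ k) := by
      refine hasSum_sum_of_ne_finset_zero fun k hk => ?_
      rw [Finset.mem_range] at hk
      rw [if_neg hk, zero_mul]
    have h3 : ∑ k ∈ Finset.range n, (if k < n then ((k : ℂ) + 1) * a k else 0) * z ^ k = P z := by
      rw [hP]
      refine Finset.sum_congr rfl fun k hk => ?_
      rw [if_pos (Finset.mem_range.mp hk)]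
    rwa [h3] at h2
  have hFd : DifferentiableOn ℂ (fun z => w z * P z) (ball 0 1) := hwd.mul hPd
  have hF : ∀ k ≤ n, tc (fun z => w z * P z) k = ((k : ℂ) + (-1)) * a k := by
    intro k hk
    have e1 : (fun z => z * h z * (Phi h z + (-1))) =ᶠ[𝓝 0]
        fun z => w z * (z * h z * (Phi h z + 1)) := by
      filter_upwards [isOpen_ball.mem_nhds (mem_ball_self (x := (0 : ℂ)) one_pos)] with z hz
      rw [hw]
      have := hden z hz
      field_simp
    have e2 : tc (fun z => z * h z * (Phi h z + (-1))) k =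
        tc (fun z => w z * (z * h z * (Phi h z + 1))) k := by
      unfold tc
      rw [e1.iteratedDeriv_eq]
    rw [H.tc_comb] at e2
    rw [ha, e2, tc_mul hwd hPd, tc_mul hwd (H.dcomb 1)]
    refine Finset.sum_congr rfl fun p hp => ?_
    rw [Finset.HasAntidiagonal.mem_antidiagonal] at hp
    rw [htP, H.tc_comb]
    split_ifs with h2
    · rfl
    · have h3 : p.1 = 0 := by omega
      rw [h3, hw0, zero_mul, zero_mul]
  have hle : ∀ z ∈ ball (0 : ℂ) 1, ‖w z * P z‖ ≤ ‖P z‖ := by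
    intro z hz
    rw [norm_mul]
    exact mul_le_of_le_one_left (norm_nonneg _) (hw1 z hz)
  have hlim := le_of_tendsto_of_tendsto' (dm_tendsto hFd h0 h1) (dm_tendsto hPd h0 h1)
    (dm_mono h0 h1 hle)
  have s1 := summable_sq (summable_coef hFd h0 h1)
  have h2 := s1.sum_le_tsum (Finset.range (n + 1)) (fun n _ => by positivity)
  have e3 : ∑' k, ‖tc P k * (r : ℂ) ^ k‖ ^ 2 =
      ∑ k ∈ Finset.range n, ‖(((k : ℂ) + 1) * a k) * (r : ℂ) ^ k‖ ^ 2 := by
    rw [tsum_eq_sum (s := Finset.range n)]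
    · refine Finset.sum_congr rfl fun k hk => ?_
      rw [htP, if_pos (Finset.mem_range.mp hk)]
    · intro k hk
      rw [Finset.mem_range] at hk
      rw [htP, if_neg hk]
      simp
  have e4 : ∑ k ∈ Finset.range (n + 1), ‖tc (fun z => w z * P z) k * (r : ℂ) ^ k‖ ^ 2 =
      ∑ k ∈ Finset.range (n + 1), ‖(((k : ℂ) + (-1)) * a k) * (r : ℂ) ^ k‖ ^ 2 := by
    refine Finset.sum_congr rfl fun k hk => ?_
    rw [hF k (by rw [Finset.mem_range] at hk; omega)]
  rw [e4, Finset.sum_range_succ] at h2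
  rw [e3] at hlim
  have h3 := h2.trans hlim
  have h4 : ∑ k ∈ Finset.range n, ‖(((k : ℂ) + 1) * a k) * (r : ℂ) ^ k‖ ^ 2 -
      ∑ k ∈ Finset.range n, ‖(((k : ℂ) + (-1)) * a k) * (r : ℂ) ^ k‖ ^ 2 =
      4 * ∑ k ∈ Finset.range n, (k : ℝ) * ‖a k * (r : ℂ) ^ k‖ ^ 2 := by
    rw [← Finset.sum_sub_distrib, Finset.mul_sum]
    refine Finset.sum_congr rfl fun k _ => ?_
    rw [mul_assoc, mul_assoc, norm_mul, norm_mul ((k : ℂ) + -1), mul_pow, mul_pow, ← sub_mul,
      norm_sq_diff, Complex.natCast_re]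
    ring
  have h5 := H.area h0 h1 n
  have e5 : ‖(((n : ℂ) + (-1)) * a n) * (r : ℂ) ^ n‖ ^ 2 =
      ((n : ℝ) - 1) ^ 2 * ‖a n * (r : ℂ) ^ n‖ ^ 2 := by
    rw [mul_assoc, norm_mul, mul_pow]
    congr 1
    rw [show (n : ℂ) + -1 = ((n - 1 : ℝ) : ℂ) by push_cast; ring, Complex.norm_real,
      Real.norm_eq_abs, sq_abs]
  rw [e5] at h3
  linarith

/-- coefficients of bounded star-like functions -/
lemma coef_le (H : StarB h M) (hM : 0 ≤ M) (n : ℕ) (hn : 1 ≤ n) :
    ((n : ℝ) - 1) * ‖tc (fun z => z * h z) n‖ ≤ 2 * M := by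
  have hn1 : (0 : ℝ) ≤ (n : ℝ) - 1 := by
    have : (1 : ℝ) ≤ n := by exact_mod_cast hn
    linarith
  have key : ∀ r : ℝ, 0 ≤ r → r < 1 →
      ((n : ℝ) - 1) * (‖tc (fun z => z * h z) n‖ * r ^ n) ≤ 2 * M := by
    intro r h0 h1
    have h2 := H.clunie h0 h1 n
    rw [norm_mul, norm_pow, Complex.norm_real, Real.norm_eq_abs, abs_of_nonneg h0, ← mul_pow] at h2
    refine le_of_sq_le_sq ?_ (by linarith)
    calc _ ≤ 4 * M ^ 2 := h2
      _ = (2 * M) ^ 2 := by ring
  have hc : Tendsto (fun r : ℝ => ((n : ℝ) - 1) * (‖tc (fun z => z * h z) n‖ * r ^ n)) (𝓝[<] 1)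
      (𝓝 (((n : ℝ) - 1) * (‖tc (fun z => z * h z) n‖ * 1 ^ n))) := by
    refine Tendsto.mono_left ?_ nhdsWithin_le_nhds
    exact (Continuous.tendsto (by fun_prop) 1)
  rw [one_pow, mul_one] at hc
  refine le_of_tendsto hc ?_
  have h3 : Ioo (0 : ℝ) 1 ∈ 𝓝[<] (1 : ℝ) := Ioo_mem_nhdsLT one_pos
  filter_upwards [h3] with r hr
  exact key r hr.1.le hr.2

/-- area -/
lemma area_le (H : StarB h M) (N : ℕ) :
    ∑ n ∈ Finset.range N, (n : ℝ) * ‖tc (fun z => z * h z) n‖ ^ 2 ≤ M ^ 2 := by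
  have key : ∀ r : ℝ, 0 ≤ r → r < 1 →
      ∑ n ∈ Finset.range N, (n : ℝ) * (‖tc (fun z => z * h z) n‖ * r ^ n) ^ 2 ≤ M ^ 2 := by
    intro r h0 h1
    have h2 := H.area h0 h1 N
    refine le_trans (le_of_eq ?_) h2
    refine Finset.sum_congr rfl fun k _ => ?_
    rw [norm_mul, norm_pow, Complex.norm_real, Real.norm_eq_abs, abs_of_nonneg h0]
  have hc : Tendsto (fun r : ℝ => ∑ n ∈ Finset.range N,
      (n : ℝ) * (‖tc (fun z => z * h z) n‖ * r ^ n) ^ 2) (𝓝[<] 1)
      (𝓝 (∑ n ∈ Finset.range N, (n : ℝ) * (‖tc (fun z => z * h z) n‖ * 1 ^ n) ^ 2)) := by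
    refine Tendsto.mono_left ?_ nhdsWithin_le_nhds
    exact (Continuous.tendsto (by fun_prop) 1)
  simp only [one_pow, mul_one] at hc
  refine le_of_tendsto hc ?_
  have h3 : Ioo (0 : ℝ) 1 ∈ 𝓝[<] (1 : ℝ) := Ioo_mem_nhdsLT one_pos
  filter_upwards [h3] with r hr
  exact key r hr.1.le hr.2

end StarB

end Pool.Agent.MSC
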