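import Pool.Agent.StarN.KMu
import Pool.Agent.StarN.InjDeriv
import Pool.Agent.StarN.Soft

/-!
MP_1ee37d_an: multipliers from univalent to convex functions. Convex functions: Study's theorem
and the argument of the derivative.
-/

namespace Pool.Agent.MSC

open Complex Metric Set Filter Topology Pool.Agent.StarN

/-- The class `C` of normalised convex functions in the unit disc. -/
def ClassC : Set (ℂ → ℂ) := {g | g ∈ ClassS ∧ Convex ℝ (g '' ball 0 1)}

/-- `lam` is a (coefficient) multiplier from `S` into `C`. -/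
def IsMult (lam : ℕ → ℂ) : Prop :=
  ∀ f ∈ ClassS, ∃ g ∈ ClassC, ∀ z ∈ ball (0 : ℂ) 1,
    HasSum (fun n => lam n * tc f n * z ^ n) (g z)

section

variable {G : ℂ → ℂ}

/-- the inverse of a univalent function -/
noncomputable def iv (G : ℂ → ℂ) : ℂ → ℂ := Function.invFunOn G (ball 0 1)

lemma iv_mem {w : ℂ} (hw : w ∈ G '' ball 0 1) : iv G w ∈ ball (0 : ℂ) 1 :=
  Function.invFunOn_mem hw

lemma G_iv {w : ℂ} (hw : w ∈ G '' ball 0 1) : G (iv G w) = w :=
  Function.invFunOn_eq hw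

lemma iv_G (hi : InjOn G (ball 0 1)) {z : ℂ} (hz : z ∈ ball (0 : ℂ) 1) : iv G (G z) = z := by
  have h : G z ∈ G '' ball 0 1 := ⟨z, hz, rfl⟩
  exact hi (iv_mem h) hz (G_iv h)

lemma deriv_ne (hd : DifferentiableOn ℂ G (ball 0 1)) (hi : InjOn G (ball 0 1)) {z : ℂ}
    (hz : z ∈ ball (0 : ℂ) 1) : deriv G z ≠ 0 :=
  deriv_ne_zero_of_injOn (isOpen_ball.mem_nhds hz) (hd.analyticAt (isOpen_ball.mem_nhds hz)) hi

lemma iv_hasDerivAt (hd : DifferentiableOn ℂ G (ball 0 1)) (hi : InjOn G (ball 0 1)) {z : ℂ}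
    (hz : z ∈ ball (0 : ℂ) 1) : HasDerivAt (iv G) (deriv G z)⁻¹ (G z) := by
  have hA : AnalyticAt ℂ G z := hd.analyticAt (isOpen_ball.mem_nhds hz)
  have hne : deriv G z ≠ 0 := deriv_ne hd hi hz
  have hs : HasStrictDerivAt G (deriv G z) z := hA.hasStrictDerivAt
  have hg := hs.to_localInverse hne
  refine hg.hasDerivAt.congr_of_eventuallyEq ?_
  have hs' := hs.hasStrictFDerivAt_equiv hne
  have h1 : ∀ᶠ w in 𝓝 (G z), G (hs.localInverse G (deriv G z) z hne w) = w :=
    hs'.eventually_right_inverse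
  have h2 : hs.localInverse G (deriv G z) z hne (G z) = z := hs'.localInverse_apply_image
  have h3 : ContinuousAt (hs.localInverse G (deriv G z) z hne) (G z) :=
    hg.hasDerivAt.continuousAt
  have h4 : ∀ᶠ w in 𝓝 (G z), hs.localInverse G (deriv G z) z hne w ∈ ball (0 : ℂ) 1 := by
    apply h3.eventually_mem
    rw [h2]
    exact isOpen_ball.mem_nhds hz
  filter_upwards [h1, h4] with w hw1 hw2
  have h5 : w ∈ G '' ball 0 1 := ⟨_, hw2, hw1⟩
  exact hi (iv_mem h5) hw2 ((G_iv h5).trans hw1.symm)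

/-- Schwarz lemma for convex combinations -/
lemma norm_iv_le (hG : G ∈ ClassC) {ζ : ℂ} (hζ : ‖ζ‖ ≤ 1) {ε : ℝ} (h0 : 0 ≤ ε) (h1 : ε ≤ 1)
    {z : ℂ} (hz : z ∈ ball (0 : ℂ) 1) :
    ‖iv G (G z + (ε : ℂ) * (G (ζ * z) - G z))‖ ≤ ‖z‖ := by
  obtain ⟨⟨hd, hi, hG0, hG1⟩, hc⟩ := hG
  have hmem : ∀ w ∈ ball (0 : ℂ) 1, ζ * w ∈ ball (0 : ℂ) 1 := by
    intro w hw
    rw [mem_ball_zero_iff] at *
    rw [norm_mul]
    calc ‖ζ‖ * ‖w‖ ≤ 1 * ‖w‖ := by gcongr
      _ < 1 := by linarith
  have him : ∀ w ∈ ball (0 : ℂ) 1, G w + (ε : ℂ) * (G (ζ * w) - G w) ∈ G '' ball 0 1 := by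
    intro w hw
    have h2 : G w ∈ G '' ball 0 1 := ⟨w, hw, rfl⟩
    have h3 : G (ζ * w) ∈ G '' ball 0 1 := ⟨_, hmem w hw, rfl⟩
    have h4 := hc h2 h3 (by linarith : (0 : ℝ) ≤ 1 - ε) h0 (by ring)
    have e : G w + (ε : ℂ) * (G (ζ * w) - G w) = (1 - ε) • G w + ε • G (ζ * w) := by
      simp only [Complex.real_smul]
      push_cast
      ring
    rw [e]
    exact h4
  have hdiff : DifferentiableOn ℂ (fun w => iv G (G w + (ε : ℂ) * (G (ζ * w) - G w)))
      (ball 0 1) := by
    intro w hw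
    obtain ⟨x, hx, hxw⟩ := him w hw
    have h5 : DifferentiableAt ℂ (fun w => G w + (ε : ℂ) * (G (ζ * w) - G w)) w := by
      have h6 : DifferentiableAt ℂ G w := hd.differentiableAt (isOpen_ball.mem_nhds hw)
      have h7 : DifferentiableAt ℂ G (ζ * w) :=
        hd.differentiableAt (isOpen_ball.mem_nhds (hmem w hw))
      have h8 : DifferentiableAt ℂ (fun w => G (ζ * w)) w :=
        DifferentiableAt.comp w h7 (differentiableAt_id.const_mul ζ)
      exact h6.add ((h8.sub h6).const_mul _)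
    have h9 : DifferentiableAt ℂ (iv G) (G w + (ε : ℂ) * (G (ζ * w) - G w)) := by
      rw [← hxw]
      exact (iv_hasDerivAt hd hi hx).differentiableAt
    exact (DifferentiableAt.comp w h9 h5).differentiableWithinAt
  have hmaps : MapsTo (fun w => iv G (G w + (ε : ℂ) * (G (ζ * w) - G w))) (ball 0 1)
      (closedBall 0 1) := fun w hw => ball_subset_closedBall (iv_mem (him w hw))
  refine Complex.norm_le_norm_of_mapsTo_ball hdiff hmaps ?_ (mem_ball_zero_iff.mp hz)
  simp only [mul_zero, hG0, sub_zero, add_zero]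
  have h0' : (0 : ℂ) ∈ ball (0 : ℂ) 1 := by simp
  have := iv_G hi h0'
  rwa [hG0] at this

/-- first order condition: the image of the circle lies on one side of its tangent -/
lemma re_tangent (hG : G ∈ ClassC) {ζ : ℂ} (hζ : ‖ζ‖ ≤ 1) {z : ℂ} (hz : z ∈ ball (0 : ℂ) 1)
    (hz0 : z ≠ 0) : 0 ≤ ((G z - G (ζ * z)) / (z * deriv G z)).re := by
  have hd := hG.1.1
  have hi := hG.1.2.1
  have hu : HasDerivAt (fun ε : ℝ => iv G (G z + (ε : ℂ) * (G (ζ * z) - G z)))
      ((deriv G z)⁻¹ * (G (ζ * z) - G z)) 0 := by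
    have h1 : HasDerivAt (fun ε : ℂ => G z + ε * (G (ζ * z) - G z)) (G (ζ * z) - G z) 0 := by
      simpa using ((hasDerivAt_id (0 : ℂ)).mul_const (G (ζ * z) - G z)).const_add (G z)
    have h2 : HasDerivAt (iv G) (deriv G z)⁻¹ (G z + 0 * (G (ζ * z) - G z)) := by
      rw [zero_mul, add_zero]
      exact iv_hasDerivAt hd hi hz
    have h3 := HasDerivAt.comp (0 : ℂ) h2 h1
    have h4 := HasDerivAt.comp_ofReal (z := 0) (by simpa using h3)
    simpa [Function.comp_def] using h4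
  have hN := hu.norm_sq
  set N : ℝ → ℝ := fun ε => ‖iv G (G z + (ε : ℂ) * (G (ζ * z) - G z))‖ ^ 2 with hNdef
  have hN0 : N 0 = ‖z‖ ^ 2 := by
    simp only [hNdef, Complex.ofReal_zero, zero_mul, add_zero, iv_G hi hz]
  have hle : 2 * inner ℝ (iv G (G z + ((0 : ℝ) : ℂ) * (G (ζ * z) - G z)))
      ((deriv G z)⁻¹ * (G (ζ * z) - G z)) ≤ 0 := by
    have h1 := (hasDerivAt_iff_tendsto_slope.mp hN).mono_left
      (nhdsWithin_mono (0 : ℝ) (fun x (hx : (0 : ℝ) < x) => ne_of_gt hx) :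
        𝓝[Ioi 0] (0 : ℝ) ≤ 𝓝[≠] 0)
    refine le_of_tendsto h1 ?_
    have h2 : ∀ᶠ ε : ℝ in 𝓝[Ioi 0] 0, ε ∈ Ioc (0 : ℝ) 1 := Ioc_mem_nhdsGT one_pos
    filter_upwards [h2] with ε hε
    rw [slope_def_field]
    have h3 : N ε ≤ N 0 := by
      rw [hN0]
      have := norm_iv_le hG hζ hε.1.le hε.2 hz
      simp only [hNdef]
      gcongr
    apply div_nonpos_of_nonpos_of_nonneg
    · exact sub_nonpos.mpr h3
    · linarith [hε.1]
  rw [Complex.ofReal_zero, zero_mul, add_zero, iv_G hi hz, Complex.inner] at hle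
  have hne := deriv_ne hd hi hz
  have hnz : 0 < ‖z‖ ^ 2 := by positivity
  have e : (G z - G (ζ * z)) / (z * deriv G z) =
      -(((starRingEnd ℂ) z * ((deriv G z)⁻¹ * (G (ζ * z) - G z))) / ((‖z‖ ^ 2 : ℝ) : ℂ)) := by
    have h5 : (starRingEnd ℂ) z * z = ((‖z‖ ^ 2 : ℝ) : ℂ) := by
      rw [mul_comm, Complex.mul_conj, Complex.normSq_eq_norm_sq]
    have h6 : (starRingEnd ℂ) z ≠ 0 := by simpa using hz0
    rw [← h5]
    field_simp
    ring
  rw [e, Complex.neg_re, Complex.div_ofReal_re]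
  have h7 : ((starRingEnd ℂ) z * ((deriv G z)⁻¹ * (G (ζ * z) - G z))).re / ‖z‖ ^ 2 ≤ 0 := by
    refine div_nonpos_of_nonpos_of_nonneg ?_ hnz.le
    rw [mul_comm]
    linarith
  linarith

/-- Study's theorem -/
lemma re_study (hG : G ∈ ClassC) {z : ℂ} (hz : z ∈ ball (0 : ℂ) 1) :
    0 ≤ (1 + z * deriv (deriv G) z / deriv G z).re := by
  rcases eq_or_ne z 0 with rfl | hz0
  · simp
  have hd := hG.1.1
  have hi := hG.1.2.1
  have hne := deriv_ne hd hi hz
  have hd2 : DifferentiableOn ℂ (deriv G) (ball 0 1) := hd.deriv isOpen_ball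
  have hmem : ∀ t : ℝ, Complex.exp (t * I) * z ∈ ball (0 : ℂ) 1 := by
    intro t
    rw [mem_ball_zero_iff, norm_mul, Complex.norm_exp_ofReal_mul_I, one_mul]
    exact mem_ball_zero_iff.mp hz
  have hexp : ∀ t : ℝ, HasDerivAt (fun w : ℂ => Complex.exp (w * I) * z)
      (Complex.exp (t * I) * I * z) t := by
    intro t
    have h1 : HasDerivAt (fun w : ℂ => w * I) I t := by
      simpa using (hasDerivAt_id (t : ℂ)).mul_const I
    exact h1.cexp.mul_const z
  set R : ℝ → ℝ := fun t => ((G z - G (Complex.exp (t * I) * z)) / (z * deriv G z)).re with hR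
  have hR1 : ∀ t : ℝ, HasDerivAt R
      (-(I * Complex.exp (t * I) * deriv G (Complex.exp (t * I) * z) / deriv G z)).re t := by
    intro t
    have h2 : HasDerivAt G (deriv G (Complex.exp (t * I) * z)) (Complex.exp (t * I) * z) :=
      (hd.differentiableAt (isOpen_ball.mem_nhds (hmem t))).hasDerivAt
    have h3 := HasDerivAt.comp (t : ℂ) h2 (hexp t)
    have h4 := (h3.const_sub (G z)).div_const (z * deriv G z)
    have h5 := h4.real_of_complex
    have e : -(deriv G (Complex.exp (t * I) * z) * (Complex.exp (t * I) * I * z)) /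
        (z * deriv G z) =
        -(I * Complex.exp (t * I) * deriv G (Complex.exp (t * I) * z) / deriv G z) := by
      field_simp
    rw [e] at h5
    exact h5
  have hR1' : deriv R = fun t : ℝ =>
      (-(I * Complex.exp (t * I) * deriv G (Complex.exp (t * I) * z) / deriv G z)).re := by
    funext t
    exact (hR1 t).deriv
  have hR2 : deriv (deriv R) 0 = (1 + z * deriv (deriv G) z / deriv G z).re := by
    rw [hR1']
    have h1 : HasDerivAt (fun w : ℂ => I * Complex.exp (w * I)) (I * (Complex.exp (0 * I) * I))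
        ((0 : ℝ) : ℂ) := by
      have h2 : HasDerivAt (fun w : ℂ => w * I) I ((0 : ℝ) : ℂ) := by
        simpa using (hasDerivAt_id (((0 : ℝ) : ℂ))).mul_const I
      have h3 := h2.cexp.const_mul I
      simpa using h3
    have h4 : HasDerivAt (deriv G) (deriv (deriv G) z)
        (Complex.exp (((0 : ℝ) : ℂ) * I) * z) := by
      have : Complex.exp (((0 : ℝ) : ℂ) * I) * z = z := by simp
      rw [this]
      exact (hd2.differentiableAt (isOpen_ball.mem_nhds hz)).hasDerivAt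
    have h5 := HasDerivAt.comp ((0 : ℝ) : ℂ) h4 (hexp 0)
    have h6 := ((h1.mul h5).div_const (deriv G z)).neg.real_of_complex
    have h7 := h6.deriv
    simp only [Function.comp_def, Complex.ofReal_zero, zero_mul, Complex.exp_zero, one_mul,
      mul_one] at h7
    have e : -((I * I * deriv G z + I * (deriv (deriv G) z * (I * z))) / deriv G z) =
        1 + z * deriv (deriv G) z / deriv G z := by
      have hI : I * I = -1 := Complex.I_mul_I
      field_simp
      linear_combination (-(deriv G z) - z * deriv (deriv G) z) * hI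
    rw [← e, ← h7]
    rfl
  have hR10 : deriv R 0 = 0 := by
    rw [hR1']
    simp [hne]
  have hR0 : R 0 = 0 := by simp [hR]
  have hRnn : ∀ t, 0 ≤ R t := fun t =>
    re_tangent hG (by rw [Complex.norm_exp_ofReal_mul_I]) hz hz0
  by_contra hneg
  push Not at hneg
  rw [← hR2] at hneg
  have hmax : IsLocalMax R 0 := isLocalMax_of_deriv_deriv_neg hneg hR10 (hR1 0).continuousAt
  have hconst : R =ᶠ[𝓝 0] fun _ => 0 := by
    filter_upwards [hmax] with t ht
    rw [hR0] at ht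
    exact le_antisymm ht (hRnn t)
  have h8 : deriv R =ᶠ[𝓝 0] fun _ => 0 := by
    have := hconst.deriv
    refine this.trans ?_
    simp
  have h9 : deriv (deriv R) 0 = 0 := by
    rw [h8.deriv_eq]
    simp
  rw [h9] at hneg
  exact lt_irrefl 0 hneg

end

end Pool.Agent.MSC
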