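import Pool.Agent.MSC.Final

/-!
# MP_1ee37d_an: multipliers from `S` into `C` decay like `n ^ (-3)`

The known necessary condition is `|lam_n| ≤ 1 / n`. The proof uses the Royster functions
`((1 - z) ^ (-μ) - 1) / μ`, `|μ - 1| < 1`, and Harnack's inequality in the parameter `μ`: it
shows that `∑ n ^ 2 lam_n z ^ n` is bounded in the disc by an absolute constant; since it is
star-like (take the Koebe function), Clunie's method bounds its coefficients by `C / n`.
-/

namespace Pool.Agent.MSC.CubicDecay

open Pool.Agent.MSC

/-- There is an absolute constant `C` such that every multiplier `(lam_n)` from `S` into the class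
of convex functions satisfies `|lam_n| ≤ C / n ^ 3` for all `n ≥ 1`. -/
theorem result : ∃ C : ℝ, ∀ lam : ℕ → ℂ, IsMult lam → ∀ n : ℕ, 1 ≤ n →
    ‖lam n‖ ≤ C / (n : ℝ) ^ 3 :=
  cubic_decay

end Pool.Agent.MSC.CubicDecay
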