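import Pool.Agent.MSC.Clunie

/-!
MP_1ee37d_an: the multipliers from `S` into `C` satisfy `|lam_n| ≤ C / n ^ 3`.
-/

namespace Pool.Agent.MSC

open Complex Metric Set Filter Topology Pool.Agent.StarN

/-- the Koebe function -/
noncomputable def koebe (z : ℂ) : ℂ := z / (1 - z) ^ 2

lemma hasSum_koebe {z : ℂ} (hz : z ∈ ball (0 : ℂ) 1) :
    HasSum (fun n : ℕ => (n : ℂ) * z ^ n) (koebe z) :=
  hasSum_coe_mul_geometric_of_norm_lt_one (mem_ball_zero_iff.mp hz)

lemma tc_koebe (n : ℕ) : tc koebe n = n :=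
  tc_of_hasSum (a := fun n : ℕ => (n : ℂ)) (fun _ hz => hasSum_koebe hz) n

lemma koebe_mem : koebe ∈ ClassS := by
  have hd : DifferentiableOn ℂ koebe (ball 0 1) := by
    intro z hz
    have h1 := one_sub_ne (mem_ball_zero_iff.mp hz)
    refine DifferentiableAt.differentiableWithinAt ?_
    unfold koebe
    exact differentiableAt_id.div (by fun_prop) (pow_ne_zero 2 h1)
  refine ⟨hd, ?_, by simp [koebe], ?_⟩
  · intro z hz w hw he
    have h1 := one_sub_ne (mem_ball_zero_iff.mp hz)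
    have h2 := one_sub_ne (mem_ball_zero_iff.mp hw)
    unfold koebe at he
    rw [div_eq_div_iff (pow_ne_zero 2 h1) (pow_ne_zero 2 h2)] at he
    have h3 : (z - w) * (1 - z * w) = 0 := by linear_combination he
    rcases mul_eq_zero.mp h3 with h4 | h4
    · exact sub_eq_zero.mp h4
    · exfalso
      have h5 : ‖z * w‖ < 1 := by
        rw [norm_mul]
        have := mem_ball_zero_iff.mp hz
        have := mem_ball_zero_iff.mp hw
        nlinarith [norm_nonneg z, norm_nonneg w]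
      have h6 : z * w = 1 := (sub_eq_zero.mp h4).symm
      rw [h6, norm_one] at h5
      exact lt_irrefl _ h5
  · have := tc_koebe 1
    rw [tc_one] at this
    simpa using this

variable {lam : ℕ → ℂ}

/-- the function `z ↦ ∑ n ^ 2 lam_n z ^ n` is star-like and bounded -/
lemma IsMult.starB (h : IsMult lam) :
    ∃ k : ℂ → ℂ, StarB k C1 ∧ ∀ n, tc (fun z => z * k z) n = (n : ℂ) ^ 2 * lam n := by
  obtain ⟨g, hg, hs⟩ := h koebe koebe_mem
  have hd := hg.1.1
  have hd2 : DifferentiableOn ℂ (deriv g) (ball 0 1) := hd.deriv isOpen_ball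
  have ht : ∀ n, tc g n = lam n * n := by
    intro n
    refine tc_of_hasSum (a := fun n : ℕ => lam n * (n : ℂ)) (fun z hz => ?_) n
    have := hs z hz
    simpa only [tc_koebe] using this
  have ht2 : ∀ n, tc (fun z => z * deriv g z) n = (n : ℂ) ^ 2 * lam n := by
    intro n
    refine tc_of_hasSum (a := fun n : ℕ => (n : ℂ) ^ 2 * lam n) (fun z hz => ?_) n
    refine (hasSum_euler hd hz).congr_fun fun m => ?_
    rw [ht]
    ring
  refine ⟨deriv g, ⟨hd2, fun z hz => deriv_ne hd hg.1.2.1 hz, fun z hz => re_study hg hz,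
    fun z hz => ?_⟩, ht2⟩
  have e : z * deriv g z = Gs (b2 lam) 1 z := by
    have h1 := hasSum_tc (differentiableOn_id.mul hd2) hz
    have hr2 : Rad (b2 lam) := (h.rad.mul_nat).mul_nat
    have h2 := hr2.hasSum_Gs (μ := 1) (by simp) (mem_ball_zero_iff.mp hz)
    refine h1.unique (h2.congr_fun fun n => ?_)
    have h3 : tc (id * deriv g) n = (n : ℂ) ^ 2 * lam n := ht2 n
    rw [h3]
    rcases n with _ | n
    · simp [b2]
    · rw [q_one, b2, b1]
      ring
  rw [e]
  exact h.bdd hz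

theorem cubic_decay : ∃ C : ℝ, ∀ lam : ℕ → ℂ, IsMult lam → ∀ n : ℕ, 1 ≤ n →
    ‖lam n‖ ≤ C / (n : ℝ) ^ 3 := by
  refine ⟨4 * C1, fun lam h n hn => ?_⟩
  obtain ⟨k, hk, hc⟩ := h.starB
  have hC : 1 ≤ C1 := by
    unfold C1
    have := Real.one_le_exp (show (0 : ℝ) ≤ 367 by norm_num)
    linarith
  have hn0 : (0 : ℝ) < n := by exact_mod_cast hn
  rw [le_div_iff₀ (by positivity)]
  rcases Nat.lt_or_ge 1 n with h2 | h2
  · have h3 := hk.coef_le (by linarith) n hn
    rw [hc, norm_mul, norm_pow, Complex.norm_natCast] at h3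
    have h4 : (n : ℝ) ≤ 2 * ((n : ℝ) - 1) := by
      have : (2 : ℝ) ≤ n := by exact_mod_cast h2
      linarith
    have h5 := norm_nonneg (lam n)
    calc ‖lam n‖ * (n : ℝ) ^ 3 = (n : ℝ) * ((n : ℝ) ^ 2 * ‖lam n‖) := by ring
      _ ≤ (2 * ((n : ℝ) - 1)) * ((n : ℝ) ^ 2 * ‖lam n‖) := by gcongr
      _ ≤ 4 * C1 := by linarith
  · have h6 : n = 1 := le_antisymm h2 hn
    subst h6
    obtain ⟨g, hg, hs⟩ := h koebe koebe_mem
    have ht : tc g 1 = lam 1 * (1 : ℕ) := by
      refine tc_of_hasSum (a := fun n : ℕ => lam n * (n : ℂ)) (fun z hz => ?_) 1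
      have := hs z hz
      simpa only [tc_koebe] using this
    rw [tc_one, hg.1.2.2.2] at ht
    have h7 : lam 1 = 1 := by simpa using ht.symm
    rw [h7]
    simp
    linarith

theorem area_bound : ∃ C : ℝ, ∀ lam : ℕ → ℂ, IsMult lam → ∀ N : ℕ,
    ∑ n ∈ Finset.range N, (n : ℝ) ^ 5 * ‖lam n‖ ^ 2 ≤ C := by
  refine ⟨C1 ^ 2, fun lam h N => ?_⟩
  obtain ⟨k, hk, hc⟩ := h.starB
  refine le_trans (le_of_eq ?_) (hk.area_le N)
  refine Finset.sum_congr rfl fun n _ => ?_
  rw [hc, norm_mul, norm_pow, Complex.norm_natCast]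
  ring

end Pool.Agent.MSC
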