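import Mathlib

/-!
MP_1ee37d_an: Harnack's inequality for the modulus.
-/

namespace Pool.Agent.MSC

open Complex Metric Set Filter Topology

lemma norm_sub_le_norm_add_conj {a b : ℂ} (ha : 0 < a.re) (hb : 0 < b.re) :
    ‖a - b‖ ≤ ‖a + (starRingEnd ℂ) b‖ := by
  have h1 : ‖a - b‖ ^ 2 ≤ ‖a + (starRingEnd ℂ) b‖ ^ 2 := by
    rw [← Complex.normSq_eq_norm_sq, ← Complex.normSq_eq_norm_sq, Complex.normSq_apply,
      Complex.normSq_apply]
    simp only [Complex.sub_re, Complex.sub_im, Complex.add_re, Complex.add_im, Complex.conj_re,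
      Complex.conj_im]
    nlinarith [mul_pos ha hb]
  exact le_of_sq_le_sq h1 (norm_nonneg _)

lemma harnack_pos {p : ℂ → ℂ} {c : ℂ} (hp : DifferentiableOn ℂ p (ball c 1))
    (hre : ∀ w ∈ ball c 1, 0 < (p w).re) {w : ℂ} (hw : w ∈ ball c 1) :
    ‖p w - p c‖ ≤ ‖w - c‖ * (‖p w‖ + ‖p c‖) := by
  have hc : c ∈ ball c (1 : ℝ) := mem_ball_self one_pos
  have hne : ∀ x ∈ ball c (1 : ℝ), p x + (starRingEnd ℂ) (p c) ≠ 0 := by
    intro x hx h
    have := congrArg Complex.re h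
    simp only [Complex.add_re, Complex.conj_re, Complex.zero_re] at this
    linarith [hre x hx, hre c hc]
  have hmem : ∀ x ∈ ball (0 : ℂ) 1, x + c ∈ ball c (1 : ℝ) := by
    intro x hx
    rw [mem_ball_zero_iff] at hx
    rw [mem_ball_iff_norm]
    simpa using hx
  set φ : ℂ → ℂ := fun x => (p (x + c) - p c) / (p (x + c) + (starRingEnd ℂ) (p c)) with hφ
  have hd : DifferentiableOn ℂ φ (ball 0 1) := by
    intro x hx
    have h1 : DifferentiableAt ℂ p (x + c) :=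
      hp.differentiableAt (isOpen_ball.mem_nhds (hmem x hx))
    have h2 : DifferentiableAt ℂ (fun x => p (x + c)) x :=
      DifferentiableAt.comp x h1 (differentiableAt_id.add_const c)
    exact ((h2.sub_const _).div (h2.add_const _) (hne _ (hmem x hx))).differentiableWithinAt
  have hmaps : MapsTo φ (ball 0 1) (closedBall 0 1) := by
    intro x hx
    rw [mem_closedBall_zero_iff, hφ, norm_div]
    exact div_le_one_of_le₀ (norm_sub_le_norm_add_conj (hre _ (hmem x hx)) (hre c hc))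
      (norm_nonneg _)
  have h0 : φ 0 = 0 := by simp [hφ]
  have hx : ‖w - c‖ < 1 := mem_ball_iff_norm.mp hw
  have h3 := Complex.norm_le_norm_of_mapsTo_ball hd hmaps h0 hx
  rw [hφ] at h3
  simp only [sub_add_cancel] at h3
  rw [norm_div, div_le_iff₀ (norm_pos_iff.mpr (hne w hw))] at h3
  refine h3.trans ?_
  gcongr
  calc ‖p w + (starRingEnd ℂ) (p c)‖ ≤ ‖p w‖ + ‖(starRingEnd ℂ) (p c)‖ := norm_add_le _ _
    _ = ‖p w‖ + ‖p c‖ := by rw [Complex.norm_conj]

lemma harnack {p : ℂ → ℂ} {c : ℂ} (hp : DifferentiableOn ℂ p (ball c 1))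
    (hre : ∀ w ∈ ball c 1, 0 ≤ (p w).re) {w : ℂ} (hw : w ∈ ball c 1) :
    (1 - ‖w - c‖) * ‖p w‖ ≤ (1 + ‖w - c‖) * ‖p c‖ ∧
      (1 - ‖w - c‖) * ‖p c‖ ≤ (1 + ‖w - c‖) * ‖p w‖ := by
  have hx : ‖w - c‖ < 1 := mem_ball_iff_norm.mp hw
  have hx0 := norm_nonneg (w - c)
  have key : ∀ ε : ℝ, 0 < ε →
      ‖p w - p c‖ ≤ ‖w - c‖ * (‖p w‖ + ‖p c‖) + ε := by
    intro ε hε
    have h1 := harnack_pos (p := fun x => p x + ((ε / 2 : ℝ) : ℂ)) (hp.add_const _)
      (fun x hx => by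
        simp only [Complex.add_re, Complex.ofReal_re]
        linarith [hre x hx]) hw
    simp only [add_sub_add_right_eq_sub] at h1
    have h2 : ‖p w + ((ε / 2 : ℝ) : ℂ)‖ ≤ ‖p w‖ + ε / 2 := by
      refine (norm_add_le _ _).trans ?_
      rw [Complex.norm_real, Real.norm_eq_abs, abs_of_pos (by linarith)]
    have h3 : ‖p c + ((ε / 2 : ℝ) : ℂ)‖ ≤ ‖p c‖ + ε / 2 := by
      refine (norm_add_le _ _).trans ?_
      rw [Complex.norm_real, Real.norm_eq_abs, abs_of_pos (by linarith)]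
    have h4 : ‖w - c‖ * (‖p w + ((ε / 2 : ℝ) : ℂ)‖ + ‖p c + ((ε / 2 : ℝ) : ℂ)‖) ≤
        ‖w - c‖ * (‖p w‖ + ‖p c‖ + ε) := by
      refine mul_le_mul_of_nonneg_left ?_ hx0
      linarith
    have h5 : ‖w - c‖ * ε ≤ ε := by nlinarith
    nlinarith
  have h6 := le_of_forall_pos_le_add key
  have h7 := norm_sub_norm_le (p w) (p c)
  have h8 := norm_sub_norm_le (p c) (p w)
  rw [norm_sub_rev] at h8
  constructor
  · nlinarith
  · nlinarith

end Pool.Agent.MSC
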