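import Pool.Agent.MSC.Chain
import Pool.Agent.CbRank.Averaging

/-!
MP_1ee37d_an: discrete mean squares of power series.
-/

namespace Pool.Agent.MSC

open Complex Metric Set Filter Topology Pool.Agent.StarN

/-- mean of `‖F‖ ^ 2` over the `K`-th roots of unity times `r` -/
noncomputable def dm (F : ℂ → ℂ) (r : ℝ) (K : ℕ) : ℝ :=
  (∑ l ∈ Finset.range K, ‖F (r * Complex.exp (2 * Real.pi * I / K) ^ l)‖ ^ 2) / K

lemma pt_mem {r : ℝ} (h0 : 0 ≤ r) (h1 : r < 1) (K l : ℕ) :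
    (r : ℂ) * Complex.exp (2 * Real.pi * I / K) ^ l ∈ ball (0 : ℂ) 1 := by
  have h2 : ‖Complex.exp (2 * Real.pi * I / K)‖ = 1 := by
    rw [show (2 * Real.pi * I / K : ℂ) = ((2 * Real.pi / K : ℝ) : ℂ) * I by push_cast; ring]
    exact Complex.norm_exp_ofReal_mul_I _
  rw [mem_ball_zero_iff, norm_mul, norm_pow, h2, one_pow, mul_one, Complex.norm_real,
    Real.norm_eq_abs, abs_of_nonneg h0]
  exact h1

lemma dm_mono {F G : ℂ → ℂ} {r : ℝ} (h0 : 0 ≤ r) (h1 : r < 1)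
    (h : ∀ z ∈ ball (0 : ℂ) 1, ‖F z‖ ≤ ‖G z‖) (K : ℕ) : dm F r K ≤ dm G r K := by
  unfold dm
  gcongr with l hl
  exact h _ (pt_mem h0 h1 K l)

lemma summable_sq {u : ℕ → ℂ} (hu : Summable fun n => ‖u n‖) : Summable fun n => ‖u n‖ ^ 2 := by
  refine (hu.mul_left (∑' n, ‖u n‖)).of_nonneg_of_le (fun n => by positivity) (fun n => ?_)
  rw [sq]
  gcongr
  exact hu.le_tsum n (fun m _ => norm_nonneg _)

lemma summable_coef {F : ℂ → ℂ} (hF : DifferentiableOn ℂ F (ball 0 1)) {r : ℝ} (h0 : 0 ≤ r)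
    (h1 : r < 1) : Summable fun n => ‖tc F n * (r : ℂ) ^ n‖ := by
  have hz : (r : ℂ) ∈ ball (0 : ℂ) 1 := by
    rw [mem_ball_zero_iff, Complex.norm_real, Real.norm_eq_abs, abs_of_nonneg h0]
    exact h1
  exact (hasSum_tc hF hz).summable.norm

lemma dm_tendsto {F : ℂ → ℂ} (hF : DifferentiableOn ℂ F (ball 0 1)) {r : ℝ} (h0 : 0 ≤ r)
    (h1 : r < 1) : Tendsto (dm F r) atTop (𝓝 (∑' n, ‖tc F n * (r : ℂ) ^ n‖ ^ 2)) := by
  set u : ℕ → ℂ := fun n => tc F n * (r : ℂ) ^ n with hu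
  have hs : Summable fun n => ‖u n‖ := summable_coef hF h0 h1
  have hs2 := summable_sq hs
  set B : ℝ := ∑' n, ‖u n‖ with hB
  have hB0 : 0 ≤ B := tsum_nonneg fun n => norm_nonneg _
  have hT : Tendsto (fun K => ∑' n, ‖u (n + K)‖) atTop (𝓝 0) :=
    tendsto_sum_nat_add fun n => ‖u n‖
  have h2 : Tendsto (fun K => ∑ e ∈ Finset.range K, ‖u e‖ ^ 2) atTop (𝓝 (∑' n, ‖u n‖ ^ 2)) :=
    hs2.hasSum.tendsto_sum_nat
  have key : ∀ K : ℕ, 0 < K → |dm F r K - ∑ e ∈ Finset.range K, ‖u e‖ ^ 2| ≤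
      (2 * B) * ∑' n, ‖u (n + K)‖ := by
    intro K hK
    have hK' : (0 : ℝ) < K := by exact_mod_cast hK
    have hω : IsPrimitiveRoot (Complex.exp (2 * Real.pi * I / K)) K :=
      Complex.isPrimitiveRoot_exp K hK.ne'
    set ω := Complex.exp (2 * Real.pi * I / K) with hω'
    have hωn : ‖ω‖ = 1 := hω.norm'_eq_one hK.ne'
    have hp := CbRank.parseval hK hω u
    have hval : ∀ l, HasSum (fun e => (ω ^ l) ^ e * u e) (F (r * ω ^ l)) := by
      intro l
      have := hasSum_tc hF (pt_mem h0 h1 K l)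
      refine this.congr_fun fun e => ?_
      rw [hu, mul_pow]
      ring
    have hn : ∀ l e, ‖(ω ^ l) ^ e * u e‖ = ‖u e‖ := by
      intro l e
      rw [norm_mul, norm_pow, norm_pow, hωn, one_pow, one_pow, one_mul]
    have hd : ∀ l, ‖F (r * ω ^ l) - ∑ e ∈ Finset.range K, (ω ^ l) ^ e • u e‖ ≤
        ∑' n, ‖u (n + K)‖ := by
      intro l
      have h3 := (hval l).summable.sum_add_tsum_nat_add K
      rw [(hval l).tsum_eq] at h3
      rw [← h3]
      simp only [smul_eq_mul, add_sub_cancel_left]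
      have hs3 : Summable fun n => ‖(ω ^ l) ^ (n + K) * u (n + K)‖ := by
        simp only [hn]
        exact (summable_nat_add_iff K).mpr hs
      refine (norm_tsum_le_tsum_norm hs3).trans (le_of_eq ?_)
      simp only [hn]
    have hF1 : ∀ l, ‖F (r * ω ^ l)‖ ≤ B := by
      intro l
      rw [← (hval l).tsum_eq]
      have hs3 : Summable fun n => ‖(ω ^ l) ^ n * u n‖ := by
        simp only [hn]
        exact hs
      refine (norm_tsum_le_tsum_norm hs3).trans (le_of_eq ?_)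
      simp only [hn]
      rfl
    have hS1 : ∀ l, ‖∑ e ∈ Finset.range K, (ω ^ l) ^ e • u e‖ ≤ B := by
      intro l
      refine (norm_sum_le _ _).trans ?_
      simp only [smul_eq_mul, hn]
      exact hs.sum_le_tsum _ (fun n _ => norm_nonneg _)
    have hpt : ∀ l, |‖F (r * ω ^ l)‖ ^ 2 - ‖∑ e ∈ Finset.range K, (ω ^ l) ^ e • u e‖ ^ 2| ≤
        (2 * B) * ∑' n, ‖u (n + K)‖ := by
      intro l
      have h3 := hF1 l
      have h4 := hS1 l
      have h5 := hd l
      have h6 := abs_norm_sub_norm_le (F (r * ω ^ l)) (∑ e ∈ Finset.range K, (ω ^ l) ^ e • u e)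
      have h7 := norm_nonneg (F (r * ω ^ l))
      have h8 := norm_nonneg (∑ e ∈ Finset.range K, (ω ^ l) ^ e • u e)
      rw [sq_sub_sq, abs_mul, abs_of_nonneg (add_nonneg h7 h8)]
      exact mul_le_mul (by linarith) (h6.trans h5) (abs_nonneg _) (by linarith)
    have hsum : |∑ l ∈ Finset.range K, (‖F (r * ω ^ l)‖ ^ 2 -
        ‖∑ e ∈ Finset.range K, (ω ^ l) ^ e • u e‖ ^ 2)| ≤
        K * ((2 * B) * ∑' n, ‖u (n + K)‖) := by
      refine (Finset.abs_sum_le_sum_abs _ _).trans ?_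
      refine (Finset.sum_le_sum fun l _ => hpt l).trans ?_
      rw [Finset.sum_const, Finset.card_range, nsmul_eq_mul]
    rw [Finset.sum_sub_distrib, hp] at hsum
    have e : dm F r K - ∑ e ∈ Finset.range K, ‖u e‖ ^ 2 =
        (∑ l ∈ Finset.range K, ‖F (r * ω ^ l)‖ ^ 2 - K * ∑ e ∈ Finset.range K, ‖u e‖ ^ 2) / K := by
      rw [sub_div, mul_div_cancel_left₀ _ hK'.ne']
      rfl
    rw [e, abs_div, abs_of_pos hK', div_le_iff₀ hK', mul_comm _ (K : ℝ)]
    exact hsum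
  have h3 : Tendsto (fun K => dm F r K - ∑ e ∈ Finset.range K, ‖u e‖ ^ 2) atTop (𝓝 0) := by
    have h4 : Tendsto (fun K => (2 * B) * ∑' n, ‖u (n + K)‖) atTop (𝓝 0) := by
      have := hT.const_mul (2 * B)
      rwa [mul_zero] at this
    refine squeeze_zero_norm' ?_ h4
    filter_upwards [eventually_gt_atTop 0] with K hK
    exact key K hK
  have h5 := h3.add h2
  simp only [sub_add_cancel, zero_add] at h5
  exact h5

/-- coefficients of a product -/
lemma tc_mul {f g : ℂ → ℂ} (hf : DifferentiableOn ℂ f (ball 0 1))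
    (hg : DifferentiableOn ℂ g (ball 0 1)) (n : ℕ) :
    tc (fun z => f z * g z) n = ∑ p ∈ Finset.HasAntidiagonal.antidiagonal n, tc f p.1 * tc g p.2 := by
  refine tc_of_hasSum (a := fun n => ∑ p ∈ Finset.HasAntidiagonal.antidiagonal n, tc f p.1 * tc g p.2)
    (fun z hz => ?_) n
  have h1 := hasSum_tc hf hz
  have h2 := hasSum_tc hg hz
  have h3 := summable_norm_sum_mul_antidiagonal_of_summable_norm h1.summable.norm h2.summable.norm
  have h4 := tsum_mul_tsum_eq_tsum_sum_antidiagonal_of_summable_norm h1.summable.norm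
    h2.summable.norm
  rw [h1.tsum_eq, h2.tsum_eq] at h4
  rw [h4]
  have h5 := h3.of_norm.hasSum
  refine h5.congr_fun fun m => ?_
  rw [Finset.sum_mul]
  refine Finset.sum_congr rfl fun p hp => ?_
  rw [← Finset.HasAntidiagonal.mem_antidiagonal.mp hp, pow_add]
  ring

end Pool.Agent.MSC
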