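import Pool.Agent.MSC.Series
import Pool.Agent.MSC.Harnack

/-!
MP_1ee37d_an: the one-parameter family of Royster functions and Harnack's inequality in the
parameter.
-/

namespace Pool.Agent.MSC

open Complex Metric Set Filter Topology Pool.Agent.StarN

variable {lam : ℕ → ℂ}

/-- the coefficients `n lam_n` -/
noncomputable def b1 (lam : ℕ → ℂ) (n : ℕ) : ℂ := (n : ℂ) * lam n

/-- the coefficients `n ^ 2 lam_n` -/
noncomputable def b2 (lam : ℕ → ℂ) (n : ℕ) : ℂ := (n : ℂ) * b1 lam n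

lemma one_mem : (1 : ℂ) ∈ ball (1 : ℂ) 1 := mem_ball_self one_pos

lemma IsMult.rad (h : IsMult lam) : Rad lam := by
  obtain ⟨g, -, hg⟩ := h (kf 1) (kf_mem (cond_of_mem one_mem))
  intro r h0 h1
  have hz : (r : ℂ) ∈ ball (0 : ℂ) 1 := by
    rw [mem_ball_zero_iff, Complex.norm_real, Real.norm_eq_abs, abs_of_nonneg h0]
    exact h1
  have h2 := (hg _ hz).summable.norm
  rw [← summable_nat_add_iff 1] at h2 ⊢
  refine h2.congr fun n => ?_
  rw [tc_kf one_ne_zero, q_one, mul_one, norm_mul, norm_pow, Complex.norm_real, Real.norm_eq_abs,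
    abs_of_nonneg h0]

lemma mem_ne_zero {μ : ℂ} (hμ : μ ∈ ball (1 : ℂ) 1) : μ ≠ 0 := by
  rintro rfl
  have := cond_of_mem hμ
  simp at this

/-- the function with coefficients `lam_n q_n(μ)` and its Euler derivatives -/
lemma IsMult.fam (h : IsMult lam) {μ : ℂ} (hμ : μ ∈ ball (1 : ℂ) 1) :
    ∃ g ∈ ClassC, ∀ z ∈ ball (0 : ℂ) 1, Gs (b1 lam) μ z = z * deriv g z ∧
      Gs (b2 lam) μ z = z * (deriv g z + z * deriv (deriv g) z) := by
  obtain ⟨g, hgC, hg⟩ := h (kf μ) (kf_mem (cond_of_mem hμ))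
  refine ⟨g, hgC, ?_⟩
  have hd := hgC.1.1
  have hd2 : DifferentiableOn ℂ (deriv g) (ball 0 1) := hd.deriv isOpen_ball
  have hμ2 := (norm_lt_two hμ).le
  have hr1 : Rad (b1 lam) := h.rad.mul_nat
  have hr2 : Rad (b2 lam) := hr1.mul_nat
  have ht : ∀ n, tc g n = lam n * q μ n := by
    intro n
    refine tc_of_hasSum (a := fun n => lam n * q μ n) (fun z hz => ?_) n
    have := hg z hz
    simpa only [tc_kf (mem_ne_zero hμ)] using this
  have e1 : ∀ z ∈ ball (0 : ℂ) 1, Gs (b1 lam) μ z = z * deriv g z := by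
    intro z hz
    have h1 := hasSum_euler hd hz
    have h2 := hr1.hasSum_Gs hμ2 (mem_ball_zero_iff.mp hz)
    refine h2.unique (h1.congr_fun ?_)
    intro n
    rw [ht, b1]
    ring
  refine fun z hz => ⟨e1 z hz, ?_⟩
  have hF : DifferentiableOn ℂ (fun z => z * deriv g z) (ball 0 1) := differentiableOn_id.mul hd2
  have h1 := hasSum_euler hF hz
  have h2 := hr2.hasSum_Gs hμ2 (mem_ball_zero_iff.mp hz)
  have ht2 : ∀ n, tc (fun z => z * deriv g z) n = b1 lam n * q μ n := by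
    intro n
    refine tc_of_hasSum (a := fun n => b1 lam n * q μ n) (fun z hz => ?_) n
    rw [← e1 z hz]
    exact hr1.hasSum_Gs hμ2 (mem_ball_zero_iff.mp hz)
  have e2 : deriv (fun z => z * deriv g z) z = deriv g z + z * deriv (deriv g) z := by
    have h3 : HasDerivAt (deriv g) (deriv (deriv g) z) z :=
      (hd2.differentiableAt (isOpen_ball.mem_nhds hz)).hasDerivAt
    have h4 := (hasDerivAt_id z).mul h3
    have h5 := h4.deriv
    simp only [id, one_mul] at h5
    exact h5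
  rw [← e2]
  refine h2.unique (h1.congr_fun ?_)
  intro n
  rw [ht2, b2]
  ring

/-- the shift identity -/
lemma Gs_shift {b : ℕ → ℂ} (hb : Rad b) {μ z : ℂ} (hμ : ‖μ‖ ≤ 2) (hμ1 : ‖1 + μ‖ ≤ 2)
    (hz : ‖z‖ < 1) :
    (1 + μ) * Gs b (1 + μ) z = Gs (fun n => (n : ℂ) * b n) μ z + μ * Gs b μ z := by
  have h1 := (hb.hasSum_Gs hμ1 hz).mul_left (1 + μ)
  have h2 := (hb.mul_nat.hasSum_Gs hμ hz).add ((hb.hasSum_Gs hμ hz).mul_left μ)
  refine h1.unique (h2.congr_fun ?_)
  intro n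
  have := q_shift μ n
  linear_combination b n * z ^ n * this

end Pool.Agent.MSC
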