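import Pool.Agent.StarN.GsBound
import Pool.Agent.MSC.Arg

/-!
MP_1ee37d_an: power series in two variables.
-/

namespace Pool.Agent.MSC

open Complex Metric Set Filter Topology Pool.Agent.StarN

lemma q_shift (μ : ℂ) (n : ℕ) : (1 + μ) * q (1 + μ) n = (n + μ) * q μ n := by
  rcases n with _ | n
  · simp [q]
  · induction n with
    | zero => simp [q]
    | succ n ih =>
      have h1 : q (1 + μ) (n + 1 + 1) = q (1 + μ) (n + 1) * ((1 + μ) + (n + 1)) / (n + 2) := rfl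
      have h2 : q μ (n + 1 + 1) = q μ (n + 1) * (μ + (n + 1)) / (n + 2) := rfl
      rw [h1, h2]
      have h3 : (n : ℂ) + 2 ≠ 0 := by exact_mod_cast (by omega : n + 2 ≠ 0)
      rw [← mul_div_assoc, ← mul_assoc, ih]
      field_simp
      push_cast
      ring

lemma q_one (n : ℕ) : q 1 (n + 1) = 1 := by
  induction n with
  | zero => rfl
  | succ n ih =>
    have h2 : q 1 (n + 1 + 1) = q 1 (n + 1) * (1 + (n + 1)) / (n + 2) := rfl
    rw [h2, ih]
    have h3 : (n : ℂ) + 2 ≠ 0 := by exact_mod_cast (by omega : n + 2 ≠ 0)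
    field_simp
    ring

lemma q_le {μ : ℂ} (hμ : ‖μ‖ ≤ 2) (n : ℕ) : ‖q μ n‖ ≤ n + 1 := by
  rcases n with _ | n
  · simp [q]
  · refine (q_bound hμ n).trans ?_
    push_cast
    linarith [(Nat.cast_nonneg n : (0 : ℝ) ≤ n)]

/-- the power series with coefficients `b` converges in the unit disc -/
def Rad (b : ℕ → ℂ) : Prop := ∀ r : ℝ, 0 ≤ r → r < 1 → Summable fun n => ‖b n‖ * r ^ n

lemma Rad.mul_nat {b : ℕ → ℂ} (hb : Rad b) : Rad fun n => (n : ℂ) * b n := by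
  intro r hr0 hr1
  have h1 : r < (1 + r) / 2 := by linarith
  have hρ0 : 0 < (1 + r) / 2 := by linarith
  have hρ1 : (1 + r) / 2 < 1 := by linarith
  have h2 := hb ((1 + r) / 2) hρ0.le hρ1
  have hx0 : 0 ≤ r / ((1 + r) / 2) := by positivity
  have hx1 : r / ((1 + r) / 2) < 1 := by rw [div_lt_one hρ0]; exact h1
  have h3 : Tendsto (fun n : ℕ => (n : ℝ) * (r / ((1 + r) / 2)) ^ n) atTop (𝓝 0) :=
    tendsto_self_mul_const_pow_of_lt_one hx0 hx1
  have h4 : ∀ᶠ n : ℕ in atTop, (n : ℝ) * (r / ((1 + r) / 2)) ^ n ≤ 1 :=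
    (h3.eventually_lt_const one_pos).mono fun n hn => hn.le
  refine h2.of_norm_bounded_eventually_nat ?_
  filter_upwards [h4] with n hn
  rw [norm_mul, norm_norm, norm_mul, Complex.norm_natCast, norm_pow, Real.norm_eq_abs,
    abs_of_nonneg hr0]
  have e : r ^ n = (r / ((1 + r) / 2)) ^ n * ((1 + r) / 2) ^ n := by
    rw [← mul_pow, div_mul_cancel₀ _ hρ0.ne']
  rw [e]
  calc (n : ℝ) * ‖b n‖ * ((r / ((1 + r) / 2)) ^ n * ((1 + r) / 2) ^ n)
      = ((n : ℝ) * (r / ((1 + r) / 2)) ^ n) * (‖b n‖ * ((1 + r) / 2) ^ n) := by ring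
    _ ≤ 1 * (‖b n‖ * ((1 + r) / 2) ^ n) := by gcongr
    _ = _ := one_mul _

lemma Rad.summable_bd {b : ℕ → ℂ} (hb : Rad b) {r : ℝ} (h0 : 0 ≤ r) (h1 : r < 1) :
    Summable fun n : ℕ => ‖b n‖ * (n + 1) * r ^ n := by
  have h2 := hb.mul_nat r h0 h1
  have h3 := hb r h0 h1
  refine (h2.add h3).congr fun n => ?_
  rw [norm_mul, Complex.norm_natCast]
  ring

lemma term_le {b : ℕ → ℂ} {μ z : ℂ} (hμ : ‖μ‖ ≤ 2) (n : ℕ) :
    ‖b n * q μ n * z ^ n‖ ≤ ‖b n‖ * (n + 1) * ‖z‖ ^ n := by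
  rw [norm_mul, norm_mul, norm_pow]
  gcongr
  exact q_le hμ n

lemma Rad.hasSum_Gs {b : ℕ → ℂ} (hb : Rad b) {μ z : ℂ} (hμ : ‖μ‖ ≤ 2) (hz : ‖z‖ < 1) :
    HasSum (fun n => b n * q μ n * z ^ n) (Gs b μ z) :=
  (Summable.of_norm_bounded (hb.summable_bd (norm_nonneg z) hz) (term_le hμ)).hasSum

lemma Rad.Gs_diff {b : ℕ → ℂ} (hb : Rad b) {z : ℂ} (hz : ‖z‖ < 1) :
    DifferentiableOn ℂ (fun μ => Gs b μ z) (ball 0 2) := by
  refine differentiableOn_tsum_of_summable_norm (hb.summable_bd (norm_nonneg z) hz)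
      (fun m => ?_) isOpen_ball (fun m μ hμ => ?_)
  · exact (((q_differentiable m).const_mul _).mul_const _).differentiableOn
  · exact term_le (mem_ball_zero_iff.mp hμ).le m

/-- the Euler operator -/
lemma hasSum_euler {f : ℂ → ℂ} (hd : DifferentiableOn ℂ f (ball 0 1)) {z : ℂ}
    (hz : z ∈ ball (0 : ℂ) 1) :
    HasSum (fun n : ℕ => (n : ℂ) * tc f n * z ^ n) (z * deriv f z) := by
  have h2 := (hasSum_tc (hd.deriv isOpen_ball) hz).mul_left z
  refine (hasSum_nat_add_iff' 1).mp ?_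
  simp only [Finset.range_one, Finset.sum_singleton, Nat.cast_zero, zero_mul, sub_zero]
  have e : (fun n : ℕ => ((n + 1 : ℕ) : ℂ) * tc f (n + 1) * z ^ (n + 1)) =
      fun i : ℕ => z * (tc (deriv f) i * z ^ i) := by
    funext n
    have h1 : tc (deriv f) n = (n + 1) * tc f (n + 1) := by
      unfold tc
      rw [iteratedDeriv_succ', Nat.factorial_succ]
      have h1 : ((n.factorial : ℕ) : ℂ) ≠ 0 := by exact_mod_cast n.factorial_ne_zero
      have h2 : (n : ℂ) + 1 ≠ 0 := by exact_mod_cast n.succ_ne_zero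
      push_cast
      field_simp
    rw [h1]
    push_cast
    ring
  rw [e]
  exact h2

lemma cond_of_mem {μ : ℂ} (hμ : μ ∈ ball (1 : ℂ) 1) : ‖μ‖ ^ 2 < 2 * |μ.re| := by
  rw [mem_ball_iff_norm] at hμ
  have h1 : ‖μ - 1‖ ^ 2 < 1 := by
    have := norm_nonneg (μ - 1)
    nlinarith
  rw [← Complex.normSq_eq_norm_sq, Complex.normSq_apply] at h1 ⊢
  simp only [Complex.sub_re, Complex.one_re, Complex.sub_im, Complex.one_im, sub_zero] at h1
  have h2 := le_abs_self μ.re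
  nlinarith

lemma norm_lt_two {μ : ℂ} (hμ : μ ∈ ball (1 : ℂ) 1) : ‖μ‖ < 2 := by
  rw [mem_ball_iff_norm] at hμ
  have h1 : ‖μ‖ ≤ ‖μ - 1‖ + ‖(1 : ℂ)‖ := by
    have := norm_add_le (μ - 1) 1
    simpa using this
  rw [norm_one] at h1
  linarith

end Pool.Agent.MSC
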